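import Pool.Agent.Helper68.KP.StS

set_option autoImplicit false

namespace Pool.Agent.Helper85.KP

open Pool.Agent.Helper52.KP Pool.Agent.Helper68.KP Filter Topology Matrix

section

variable {A : Type} [CommRing A] [Algebra ℂ A] {E : ℕ → Submodule ℂ A} {ip : A → A → ℂ}

private theorem ip_smul_right (h : HF E ip) {k : ℕ} (c : ℂ) (f g : E k) :
    ip f ((c • g : E k) : A) = star c * ip f g := by
  have h1 : ((c • g : E k) : A) = c • (g : A) := rfl
  rw [h1, h.symm k _ ((E k).smul_mem c g.2) _ f.2, h.smul k c _ g.2 _ f.2, h.symm k _ g.2 _ f.2]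
  simp

private theorem ip_smul_left (h : HF E ip) {k : ℕ} (c : ℂ) (f g : E k) :
    ip ((c • f : E k) : A) g = c * ip f g := h.smul k c _ f.2 _ g.2

private theorem ip_add_left (h : HF E ip) {k : ℕ} (f f' g : E k) :
    ip ((f + f' : E k) : A) g = ip f g + ip f' g := h.add k _ f.2 _ f'.2 _ g.2

private theorem ip_add_right (h : HF E ip) {k : ℕ} (f g g' : E k) :
    ip f ((g + g' : E k) : A) = ip f g + ip f g' := by
  rw [h.symm k _ (g + g' : E k).2 _ f.2]
  rw [ip_add_left h g g' f, star_add, ← h.symm k _ g.2 _ f.2, ← h.symm k _ g'.2 _ f.2]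

private theorem dd_add {W W' : ∀ k, E k →ₗ[ℂ] E k} (h : DD E W) (h' : DD E W') :
    DD E (fun k => W k + W' k) := by
  intro k k' f f' g hg
  have h1 := h k k' f f' g hg
  have h2 := h' k k' f f' g hg
  simp only [LinearMap.add_apply, Submodule.coe_add]
  rw [h1, h2]; ring

private theorem dd_smul (c : ℂ) {W : ∀ k, E k →ₗ[ℂ] E k} (h : DD E W) :
    DD E (fun k => c • W k) := by
  intro k k' f f' g hg
  have h1 := h k k' f f' g hg
  simp only [LinearMap.smul_apply, Submodule.coe_smul]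
  rw [h1, smul_add, smul_mul_assoc, mul_smul_comm]

private theorem dd_zero : DD E (fun _ => 0) := by
  intro k k' f f' g _
  simp

private theorem sa_add (hH : HF E ip) {W W' : ∀ k, E k →ₗ[ℂ] E k} (h : SA ip W) (h' : SA ip W') :
    SA ip (fun k => W k + W' k) := by
  intro k f g
  simp only [LinearMap.add_apply]
  rw [ip_add_left hH, ip_add_right hH, h k f g, h' k f g]

private theorem sa_smul (hH : HF E ip) (c : ℝ) {W : ∀ k, E k →ₗ[ℂ] E k} (h : SA ip W) :
    SA ip (fun k => (c : ℂ) • W k) := by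
  intro k f g
  simp only [LinearMap.smul_apply]
  rw [ip_smul_left hH, ip_smul_right hH, h k f g]
  simp

private theorem sa_zero (hH : HF E ip) : SA ip (fun k => (0 : E k →ₗ[ℂ] E k)) := by
  intro k f g
  have h1 := ip_smul_left hH 0 f g
  have h2 := ip_smul_right hH 0 f g
  simp only [zero_smul, zero_mul, star_zero] at h1 h2
  simp only [LinearMap.zero_apply]
  rw [h1, h2]

/-- matrix of an operator in the coordinates `φ` -/
private noncomputable def mt {k N : ℕ} (φ : E k ≃ₗ[ℂ] (Fin N → ℂ)) (T : E k →ₗ[ℂ] E k) :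
    Matrix (Fin N) (Fin N) ℂ := LinearMap.toMatrix' (φ.toLinearMap ∘ₗ T ∘ₗ φ.symm.toLinearMap)

private theorem mt_spec {k N : ℕ} (φ : E k ≃ₗ[ℂ] (Fin N → ℂ)) (T : E k →ₗ[ℂ] E k) (f : E k) :
    φ (T f) = mt φ T *ᵥ φ f := by
  unfold mt
  rw [← Matrix.toLin'_apply, Matrix.toLin'_toMatrix']
  simp

private theorem herm_of_sa {k N : ℕ} (φ : E k ≃ₗ[ℂ] (Fin N → ℂ))
    (hφ : ∀ f g : E k, ip f g = ∑ i, φ f i * star (φ g i)) {W : ∀ k, E k →ₗ[ℂ] E k}
    (hW : SA ip W) {B : Matrix (Fin N) (Fin N) ℂ} (hB : ∀ f, φ (W k f) = B *ᵥ φ f) :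
    B.IsHermitian := by
  ext i j
  have h := hW k (φ.symm (Pi.single i 1)) (φ.symm (Pi.single j 1))
  rw [hφ, hφ, hB, hB] at h
  simp only [LinearEquiv.apply_symm_apply] at h
  simp only [Matrix.conjTranspose_apply]
  have e1 : ∑ a, (B *ᵥ Pi.single i 1) a * star ((Pi.single j 1 : Fin N → ℂ) a) = B j i := by
    rw [Finset.sum_eq_single j]
    · simp
    · intro b _ hb; simp [Pi.single_eq_of_ne hb]
    · simp
  have e2 : ∑ a, (Pi.single i 1 : Fin N → ℂ) a * star ((B *ᵥ Pi.single j 1) a) = star (B i j) := by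
    rw [Finset.sum_eq_single i]
    · simp
    · intro b _ hb; simp [Pi.single_eq_of_ne hb]
    · simp
  rw [e1, e2] at h
  rw [h, star_star]

private theorem ip_self {k N : ℕ} (φ : E k ≃ₗ[ℂ] (Fin N → ℂ))
    (hφ : ∀ f g : E k, ip f g = ∑ i, φ f i * star (φ g i)) (x : E k) :
    (ip x x).re = ∑ a, ‖φ x a‖ ^ 2 := by
  rw [hφ, Complex.re_sum]
  refine Finset.sum_congr rfl fun a _ => ?_
  rw [Complex.star_def, Complex.mul_conj, Complex.ofReal_re, Complex.normSq_eq_norm_sq]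

/-- the real space of the matrices of self-adjoint derivations -/
private noncomputable def SM (hH : HF E ip) {k N : ℕ} (φ : E k ≃ₗ[ℂ] (Fin N → ℂ)) :
    Submodule ℝ (Matrix (Fin N) (Fin N) ℂ) where
  carrier := {B | ∃ W : ∀ k, E k →ₗ[ℂ] E k, DD E W ∧ SA ip W ∧ ∀ f, φ (W k f) = B *ᵥ φ f}
  add_mem' := by
    rintro B B' ⟨W, h1, h2, h3⟩ ⟨W', h1', h2', h3'⟩
    refine ⟨fun k => W k + W' k, dd_add h1 h1', sa_add hH h2 h2', fun f => ?_⟩
    simp only [LinearMap.add_apply, map_add, h3, h3', Matrix.add_mulVec]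
  zero_mem' := ⟨fun _ => 0, dd_zero, sa_zero hH, fun f => by simp⟩
  smul_mem' := by
    rintro c B ⟨W, h1, h2, h3⟩
    refine ⟨fun k => (c : ℂ) • W k, dd_smul _ h1, sa_smul hH c h2, fun f => ?_⟩
    simp only [LinearMap.smul_apply, map_smul, h3]
    rw [show (c • B : Matrix (Fin N) (Fin N) ℂ) = (c : ℂ) • B from ?_, Matrix.smul_mulVec]
    ext i j
    simp

/-- the set of the matrices of automorphisms which have an adjoint -/
private def GM (E : ℕ → Submodule ℂ A) (ip : A → A → ℂ) {k N : ℕ}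
    (φ : E k ≃ₗ[ℂ] (Fin N → ℂ)) : Set (Matrix (Fin N) (Fin N) ℂ) :=
  {S | ∃ σ σ' : ∀ k, E k →ₗ[ℂ] E k, AU E σ ∧ AU E σ' ∧ AD ip σ σ' ∧
    ∀ f, φ (σ k f) = S *ᵥ φ f}

private theorem isUnit_of_au {k N : ℕ} (φ : E k ≃ₗ[ℂ] (Fin N → ℂ))
    {σ : ∀ k, E k →ₗ[ℂ] E k} (hσ : AU E σ) {S : Matrix (Fin N) (Fin N) ℂ}
    (hS : ∀ f, φ (σ k f) = S *ᵥ φ f) : IsUnit S := by
  rw [← Matrix.mulVec_injective_iff_isUnit]
  intro v v' h
  have h1 : φ (σ k (φ.symm v)) = φ (σ k (φ.symm v')) := by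
    rw [hS, hS]; simpa using h
  have h2 := (hσ.1 k).1 (φ.injective h1)
  exact φ.symm.injective h2

private theorem au_comp {σ τ : ∀ k, E k →ₗ[ℂ] E k} (hσ : AU E σ) (hτ : AU E τ) :
    AU E (fun k => τ k ∘ₗ σ k) := by
  refine ⟨fun k => (hτ.1 k).comp (hσ.1 k), fun k k' f f' g hg => ?_⟩
  have h1 := hσ.2 k k' f f' g hg
  exact hτ.2 k k' (σ k f) (σ k' f') (σ (k + k') g) h1

private theorem au_one : AU E (fun _ => LinearMap.id) :=
  ⟨fun _ => Function.bijective_id, fun _ _ _ _ _ hg => hg⟩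

/-- the filtration in coordinates -/
private def FC (F : ℕ → ℕ → Submodule ℂ A) {k N : ℕ} (φ : E k ≃ₗ[ℂ] (Fin N → ℂ)) (l : ℕ) :
    Submodule ℂ (Fin N → ℂ) :=
  Submodule.map φ.toLinearMap (Submodule.comap (E k).subtype (F k l))

private theorem oa_of {F : ℕ → ℕ → Submodule ℂ A} {k N : ℕ} (φ : E k ≃ₗ[ℂ] (Fin N → ℂ))
    (hφ : ∀ f g : E k, ip f g = ∑ i, φ f i * star (φ g i))
    {σ : ∀ k, E k →ₗ[ℂ] E k} {S : Matrix (Fin N) (Fin N) ℂ} (hS : ∀ f, φ (σ k f) = S *ᵥ φ f)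
    {s : Fin N → Fin N → ℂ} {lam : Fin N → ℕ}
    (hs : ∀ i j, ∑ a, s i a * star (s j a) = if i = j then 1 else 0)
    (hm : ∀ l, Submodule.map (Matrix.mulVecLin S) (FC F φ l) =
      Submodule.span ℂ (s '' {j | l ≤ lam j})) :
    OA ip (im σ F) k (fun j => φ.symm (s j)) lam := by
  refine ⟨fun i j => ?_, fun l => ?_⟩
  · rw [hφ]; simpa using hs i j
  · have h1 : im σ F k l = Submodule.map ((E k).subtype ∘ₗ φ.symm.toLinearMap)
        (Submodule.map (Matrix.mulVecLin S) (FC F φ l)) := by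
      unfold im FC
      rw [← Submodule.map_comp, ← Submodule.map_comp]
      congr 1
      ext f
      simp only [LinearMap.comp_apply, LinearEquiv.coe_coe, Matrix.mulVecLin_apply, ← hS,
        LinearEquiv.symm_apply_apply]
    rw [h1, hm, Submodule.map_span, ← Set.image_comp]
    rfl

private theorem all_ge {N : ℕ} {s : Fin N → Fin N → ℂ} {lam : Fin N → ℕ} {k : ℕ}
    (hs : ∀ i j, ∑ a, s i a * star (s j a) = if i = j then 1 else 0)
    (h : (⊤ : Submodule ℂ (Fin N → ℂ)) = Submodule.span ℂ (s '' {j | k ≤ lam j})) (j : Fin N) :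
    k ≤ lam j := by
  by_contra hj
  have h1 : s j ∈ Submodule.span ℂ (s '' {j | k ≤ lam j}) := by rw [← h]; trivial
  have h2 : ∀ v ∈ Submodule.span ℂ (s '' {j | k ≤ lam j}), ∑ a, v a * star (s j a) = 0 := by
    intro v hv
    induction hv using Submodule.span_induction with
    | mem v hv =>
      obtain ⟨i, hi, rfl⟩ := hv
      rw [hs]
      rw [if_neg]
      rintro rfl
      exact hj hi
    | zero => simp
    | add v w _ _ hv hw =>
      simp only [Pi.add_apply, add_mul, Finset.sum_add_distrib, hv, hw, add_zero]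
    | smul c v _ hv =>
      simp only [Pi.smul_apply, smul_eq_mul, mul_assoc, ← Finset.mul_sum, hv, mul_zero]
  have h3 := h2 _ h1
  rw [hs, if_pos rfl] at h3
  exact one_ne_zero h3

private theorem hs_neg {N p : ℕ} (M : Matrix (Fin N) (Fin p) ℂ) : hs (-M) = hs M := by
  simp [hs]

private theorem im_one {F : ℕ → ℕ → Submodule ℂ A} {k l : ℕ} (hF : F k l ≤ E k) :
    im (fun k => (LinearMap.id : E k →ₗ[ℂ] E k)) F k l = F k l := by
  unfold im
  rw [LinearMap.comp_id, Submodule.map_comap_subtype, inf_eq_right.mpr hF]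

end

theorem lvl_aux {A : Type} [CommRing A] [Algebra ℂ A]
    {E : ℕ → Submodule ℂ A} {ip : A → A → ℂ} {Λ : ℕ} {F : ℕ → ℕ → Submodule ℂ A}
    (hDIR : StDIR) (hCAB : StCAB) (hSLP : StSLP) (hWEX : StWEX)
    (hEXF : StEXF) (hLGF : StLGF) {M : ℕ} (hSG : SG E M) (hHF : HF E ip) (hFF : FF E Λ F)
    {δ ε : ℝ} (hδ0 : 0 < δ) (hδ1 : δ ≤ 1 / 10) (hδε : 6 * δ * (Λ : ℝ) ^ 2 ≤ ε) {k : ℕ}
    (hk1 : 0 < k) {N : ℕ} (hN : 0 < N)
    (φ : E k ≃ₗ[ℂ] (Fin N → ℂ)) (hφ : ∀ f g : E k, ip f g = ∑ i, φ f i * star (φ g i))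
    (hkk : F k k = E k)
    (hONE : ∀ σ : ∀ k, E k →ₗ[ℂ] E k, AU E σ →
      ∃ W : ∀ k, E k →ₗ[ℂ] E k, DD E W ∧ SA ip W ∧
      ∀ (N : ℕ) (s : Fin N → E k) (lam : Fin N → ℕ), OA ip (im σ F) k s lam →
        ∑ j, (ip ((lam j : ℂ) • s j - W k (s j) : E k) ((lam j : ℂ) • s j - W k (s j) : E k)).re ≤
          δ ^ 2 * (k : ℝ) ^ 2 * N) :
    ∃ W : ∀ k, E k →ₗ[ℂ] E k, DD E W ∧ SA ip W ∧
      ∃ (N : ℕ) (b : Fin N → A) (lam : Fin N → ℕ) (mu : Fin N → ℝ), LinearIndependent ℂ b ∧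
        (∀ l, F k l = Submodule.span ℂ (b '' {j | l ≤ lam j})) ∧
        (∀ y, GW W k y = Submodule.span ℂ (b '' {j | y ≤ mu j})) ∧
        ∑ j, ((lam j : ℝ) - mu j) ^ 2 ≤ ε * (k : ℝ) ^ 2 * N := by
  have hanti : Antitone (F k) := antitone_nat_of_succ_le (hFF.anti k)
  have hFle : ∀ l, F k l ≤ E k := fun l => by
    rw [← hFF.zero k]; exact hanti (Nat.zero_le l)
  have hFCa : Antitone (FC F φ) := fun l l' h =>
    Submodule.map_mono (Submodule.comap_mono (hanti h))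
  have hFC0 : ∀ l, F k l = E k → FC F φ l = ⊤ := fun l hl => by
    unfold FC
    rw [hl, Submodule.comap_subtype_self, Submodule.map_top, LinearEquiv.range]
  have hFCb : FC F φ (Λ * k + 1) = ⊥ := by
    unfold FC
    rw [hFF.bot k _ (Nat.lt_succ_self _)]
    have : Submodule.comap (E k).subtype ⊥ = ⊥ := by
      rw [← LinearMap.ker, Submodule.ker_subtype]
    rw [this, Submodule.map_bot]
  obtain ⟨w, hwO, hwm, hwc, hwc0, hwr, hwx⟩ :=
    hWEX N (Λ * k + 1) (FC F φ) hFCa (hFC0 0 (hFF.zero k)) hFCb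
  -- lower bound of the norm
  have hL : hs (w.L 1) = hs (w.L 1) := rfl
  have hbound : (k : ℝ) ^ 2 * N ≤ hs (w.L 1) ∧ hs (w.L 1) ≤ ((Λ : ℝ) * k) ^ 2 * N := by
    obtain ⟨⟨s, lam, hs1, hs2, hs3⟩, hx⟩ := hwx 1 isUnit_one
    have h1 := hx s lam hs1 hs2 hs3 0
    have h2 : hs (0 - w.L 1) = hs (w.L 1) := by rw [zero_sub, hs_neg]
    rw [h2] at h1
    have h3 : ∀ j, ∑ a, ‖(lam j : ℂ) * s j a - ((0 : Matrix (Fin N) (Fin N) ℂ) *ᵥ s j) a‖ ^ 2 =
        (lam j : ℝ) ^ 2 := by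
      intro j
      have h4 : ∑ a, ‖s j a‖ ^ 2 = 1 := by
        have := congrArg Complex.re (hs1 j j)
        rw [if_pos rfl, Complex.re_sum] at this
        rw [Complex.one_re] at this
        rw [← this]
        refine Finset.sum_congr rfl fun a _ => ?_
        rw [Complex.star_def, Complex.mul_conj, Complex.ofReal_re, Complex.normSq_eq_norm_sq]
      simp only [Matrix.zero_mulVec, Pi.zero_apply, sub_zero, norm_mul, mul_pow, ← Finset.mul_sum,
        h4, mul_one, Complex.norm_natCast]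
    rw [Finset.sum_congr rfl fun j _ => h3 j] at h1
    have h5 : ∀ j, k ≤ lam j := by
      refine all_ge hs1 ?_
      rw [← hs3 k, hFC0 k hkk]
      rw [Matrix.mulVecLin_one, Submodule.map_id]
    rw [h1]
    constructor
    · calc (k : ℝ) ^ 2 * N = ∑ _j : Fin N, (k : ℝ) ^ 2 := by simp [mul_comm]
        _ ≤ _ := Finset.sum_le_sum fun j _ => by
          have : (k : ℝ) ≤ lam j := by exact_mod_cast h5 j
          exact pow_le_pow_left₀ (Nat.cast_nonneg k) this 2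
    · calc ∑ j, (lam j : ℝ) ^ 2 ≤ ∑ _j : Fin N, ((Λ : ℝ) * k) ^ 2 :=
          Finset.sum_le_sum fun j _ => by
            have h6 : lam j ≤ Λ * k := Nat.lt_succ_iff.mp (hs2 j)
            have : (lam j : ℝ) ≤ (Λ : ℝ) * k := by exact_mod_cast h6
            exact pow_le_pow_left₀ (Nat.cast_nonneg _) this 2
        _ = _ := by simp [mul_comm]
  have hkN : 0 < (k : ℝ) ^ 2 * N := by positivity
  have hLpos : 0 < hs (w.L 1) := lt_of_lt_of_le hkN hbound.1
  obtain ⟨ξ, hξS, hξ1, hξf⟩ := hDIR N w (SM hHF φ) (GM E ip φ) δ hwO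
    (by
      rintro B ⟨W, h1, h2, h3⟩
      exact herm_of_sa φ hφ h2 h3)
    (by
      refine ⟨fun _ => LinearMap.id, fun _ => LinearMap.id, au_one, au_one, fun k f g => rfl,
        fun f => by simp⟩)
    (by
      rintro B ⟨W, h1, h2, h3⟩ S ⟨σ, σ', g1, g2, g3, g4⟩
      obtain ⟨τ, t1, t2, t3⟩ := hEXF A E ip M hSG hHF W h1 h2
      refine ⟨fun k => τ k ∘ₗ σ k, fun k => σ' k ∘ₗ τ k, au_comp g1 t1, au_comp t1 g2,
        fun k f g => ?_, fun f => ?_⟩
      · show ip (τ k (σ k f)) g = ip f (σ' k (τ k g))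
        rw [t2 k, g3 k]
      · show φ (τ k (σ k f)) = _
        rw [t3 k N φ B hφ h3, g4, Matrix.mulVec_mulVec])
    (by
      rintro S ⟨σ, σ', g1, g2, g3, g4⟩
      refine ⟨isUnit_of_au φ g1 g4, ?_⟩
      obtain ⟨W, h1, h2, h3⟩ := hLGF A E ip M hSG hHF σ σ' g1 g2 g3
      exact ⟨mt φ (W k), ⟨W, h1, h2, mt_spec φ (W k)⟩,
        h3 k N φ S (mt φ (W k)) hφ g4 (mt_spec φ (W k))⟩)
    hδ0 hδ1 hLpos
    (by
      rintro S ⟨σ, σ', g1, g2, g3, g4⟩
      obtain ⟨⟨s, lam, hs1, hs2, hs3⟩, hx⟩ := hwx S (isUnit_of_au φ g1 g4)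
      obtain ⟨W, h1, h2, h3⟩ := hONE σ g1
      refine ⟨mt φ (W k), ⟨W, h1, h2, mt_spec φ (W k)⟩, ?_⟩
      have h4 := h3 N (fun j => φ.symm (s j)) lam (oa_of φ hφ g4 hs1 hs3)
      rw [hx s lam hs1 hs2 hs3]
      have h5 : ∀ j, (ip ((lam j : ℂ) • φ.symm (s j) - W k (φ.symm (s j)) : E k)
          ((lam j : ℂ) • φ.symm (s j) - W k (φ.symm (s j)) : E k)).re =
          ∑ a, ‖(lam j : ℂ) * s j a - (mt φ (W k) *ᵥ s j) a‖ ^ 2 := by
        intro j
        rw [ip_self φ hφ]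
        refine Finset.sum_congr rfl fun a _ => ?_
        rw [map_sub, map_smul, mt_spec]
        simp
      rw [← Finset.sum_congr rfl fun j _ => h5 j]
      refine h4.trans ?_
      rw [mul_assoc]
      exact mul_le_mul_of_nonneg_left hbound.1 (sq_nonneg δ))
  obtain ⟨W, hW1, hW2, hW3⟩ := hξS
  have hξH : ξ.IsHermitian := herm_of_sa φ hφ hW2 hW3
  obtain ⟨b, lam, mu, hb, hbF, hbG⟩ := hCAB N (Λ * k + 1) (FC F φ) ξ hFCa
    (hFC0 0 (hFF.zero k)) hFCb hξH
  have hlamlt : ∀ j, lam j < Λ * k + 1 := by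
    intro j
    by_contra hj
    push Not at hj
    have h1 : b j ∈ FC F φ (Λ * k + 1) := by
      rw [hbF]
      exact Submodule.subset_span ⟨j, hj, rfl⟩
    rw [hFCb, Submodule.mem_bot] at h1
    exact hb.ne_zero j h1
  set L : ℝ := Real.sqrt (hs (w.L 1)) with hLdef
  have hL0 : 0 < L := Real.sqrt_pos.mpr hLpos
  have hL2 : L ^ 2 = hs (w.L 1) := Real.sq_sqrt hLpos.le
  obtain ⟨hc1, hc2, hc3⟩ := hSLP N w (FC F φ) ξ b lam mu ((1 - 3 * δ) * L) hwO hwc hwc0 hwr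
    (fun j => by rw [hwm]; exact (hlamlt j).le) hξH hb hbF hbG hξf
  refine ⟨fun k => (L : ℂ) • W k, dd_smul _ hW1, sa_smul hHF L hW2, N,
    fun j => (φ.symm (b j) : A), lam, fun j => L * mu j, ?_, ?_, ?_, ?_⟩
  · have h1 : LinearIndependent ℂ (fun j => φ.symm (b j)) :=
      hb.map' φ.symm.toLinearMap (LinearEquiv.ker φ.symm)
    exact h1.map' (E k).subtype (Submodule.ker_subtype _)
  · intro l
    have h1 : F k l = Submodule.map ((E k).subtype ∘ₗ φ.symm.toLinearMap) (FC F φ l) := by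
      unfold FC
      rw [← Submodule.map_comp]
      have : ((E k).subtype ∘ₗ φ.symm.toLinearMap) ∘ₗ φ.toLinearMap = (E k).subtype := by
        ext f; simp
      rw [this, Submodule.map_comap_subtype, inf_eq_right.mpr (hFle l)]
    rw [h1, hbF, Submodule.map_span, ← Set.image_comp]
    rfl
  · intro y
    have h1 : GW (fun k => (L : ℂ) • W k) k y =
        Submodule.map ((E k).subtype ∘ₗ φ.symm.toLinearMap) (Gm ξ (y / L)) := by
      unfold GW Gm
      rw [Submodule.map_span]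
      congr 1
      ext f
      constructor
      · rintro ⟨e, v, hv, he, rfl⟩
        refine ⟨φ e, ⟨v / L, by gcongr, ?_⟩, by simp⟩
        have h2 : (L : ℂ) • W k e = (v : ℂ) • e := he
        have h3 : W k e = ((v / L : ℝ) : ℂ) • e := by
          have hLc : (L : ℂ) ≠ 0 := by exact_mod_cast hL0.ne'
          have : (L : ℂ)⁻¹ • ((L : ℂ) • W k e) = (L : ℂ)⁻¹ • ((v : ℂ) • e) := by rw [h2]
          rw [smul_smul, inv_mul_cancel₀ hLc, one_smul, smul_smul] at this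
          rw [this]
          congr 1
          push_cast
          field_simp
        rw [← hW3, h3, map_smul]
      · rintro ⟨u, ⟨x, hx, hu⟩, rfl⟩
        refine ⟨φ.symm u, L * x, ?_, ?_, by simp⟩
        · rw [div_le_iff₀ hL0] at hx
          linarith [mul_comm x L]
        · have h3 : W k (φ.symm u) = (x : ℂ) • φ.symm u := by
            apply φ.injective
            rw [hW3, map_smul]
            simpa using hu
          show (L : ℂ) • W k (φ.symm u) = _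
          rw [h3, smul_smul]
          push_cast
          rfl
    rw [h1, hbG, Submodule.map_span, ← Set.image_comp]
    have h2 : {j | y / L ≤ mu j} = {j | y ≤ L * mu j} := by
      ext j
      simp only [Set.mem_setOf_eq]
      rw [div_le_iff₀ hL0, mul_comm]
    rw [h2]
    rfl
  · have h1 : ∑ j, ((lam j : ℝ) - L * mu j) ^ 2 =
        ∑ j, (lam j : ℝ) ^ 2 - 2 * L * ∑ j, (lam j : ℝ) * mu j + L ^ 2 * ∑ j, mu j ^ 2 := by
      rw [Finset.mul_sum, Finset.mul_sum, ← Finset.sum_sub_distrib, ← Finset.sum_add_distrib]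
      refine Finset.sum_congr rfl fun j _ => ?_
      ring
    rw [h1, hc2, hc3, hξ1, ← hL2]
    have h2 : L * ((1 - 3 * δ) * L) ≤ L * ∑ j, (lam j : ℝ) * mu j :=
      mul_le_mul_of_nonneg_left hc1 hL0.le
    have h3 : L ^ 2 ≤ ((Λ : ℝ) * k) ^ 2 * N := hL2 ▸ hbound.2
    have h4 : 6 * δ * L ^ 2 ≤ ε * (k : ℝ) ^ 2 * N := by
      calc 6 * δ * L ^ 2 ≤ 6 * δ * (((Λ : ℝ) * k) ^ 2 * N) :=
            mul_le_mul_of_nonneg_left h3 (by positivity)
        _ = (6 * δ * (Λ : ℝ) ^ 2) * ((k : ℝ) ^ 2 * N) := by ring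
        _ ≤ ε * ((k : ℝ) ^ 2 * N) := mul_le_mul_of_nonneg_right hδε hkN.le
        _ = _ := by ring
    nlinarith

theorem hLVL (hDIR : StDIR) (hCAB : StCAB) (hSLP : StSLP) (hWEX : StWEX) (hONB : StONB)
    (hEXF : StEXF) (hLGF : StLGF) : StLVL := by
  intro A _ _ _ E ip M Λ F hSG hHF hFF hONE ε hε
  set δ : ℝ := min ε (1 / 2) / (6 * (Λ : ℝ) ^ 2 + 10) with hδ
  have hpos : 0 < 6 * (Λ : ℝ) ^ 2 + 10 := by positivity
  have hm : 0 < min ε (1 / 2) := lt_min hε (by norm_num)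
  have hδ0 : 0 < δ := div_pos hm hpos
  have hδ1 : δ ≤ 1 / 10 := by
    rw [hδ, div_le_iff₀ hpos]
    have := min_le_right ε (1 / 2)
    nlinarith [sq_nonneg (Λ : ℝ)]
  have hδε : 6 * δ * (Λ : ℝ) ^ 2 ≤ ε := by
    have h1 : δ * (6 * (Λ : ℝ) ^ 2 + 10) = min ε (1 / 2) := div_mul_cancel₀ _ hpos.ne'
    have h2 := min_le_left ε (1 / 2)
    nlinarith
  obtain ⟨k₀, hk₀⟩ := hONE (δ ^ 2) (by positivity)
  obtain ⟨a, ha, hgr⟩ := hSG.grow
  have hfin : ∀ᶠ k : ℕ in atTop, 0 < Module.finrank ℂ (E k) := by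
    have h1 := hgr.eventually (lt_mem_nhds ha)
    refine h1.mono fun k hk => ?_
    by_contra h0
    have : Module.finrank ℂ (E k) = 0 := by omega
    rw [this] at hk
    simp at hk
  obtain ⟨k₁, hk₁⟩ := eventually_atTop.mp hfin
  have hkk : ∀ k, F k k = E k := by
    intro k
    rcases Nat.eq_zero_or_pos k with rfl | hk
    · exact hFF.zero 0
    · induction k with
      | zero => exact absurd hk (lt_irrefl 0)
      | succ k ih =>
        rcases Nat.eq_zero_or_pos k with rfl | hk'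
        · exact hFF.one
        · apply le_antisymm
          · rw [← hFF.zero (k + 1)]
            exact antitone_nat_of_succ_le (hFF.anti (k + 1)) (Nat.zero_le _)
          · rw [hSG.gen k hk', Submodule.span_le]
            rintro _ ⟨f, f', hf, hf', rfl⟩
            refine hFF.mul k k 1 1 f f' ?_ ?_
            · rw [ih hk']; exact hf
            · rw [hFF.one]; exact hf'
  refine ⟨max (max k₀ k₁) 1, fun k hk => ?_⟩
  have h1 : k₀ ≤ k := (le_max_left _ _).trans ((le_max_left _ _).trans hk)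
  have h2 : k₁ ≤ k := (le_max_right _ _).trans ((le_max_left _ _).trans hk)
  have h3 : 0 < k := (le_max_right _ _).trans hk
  obtain ⟨φ, hφ⟩ := hONB A E ip k (hSG.fd k) hHF
  exact lvl_aux hDIR hCAB hSLP hWEX hEXF hLGF hSG hHF hFF hδ0 hδ1 hδε h3 (hk₁ k h2) φ hφ (hkk k)
    (hk₀ k h1)

end Pool.Agent.Helper85.KP
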