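import Pool.Agent.Helper85.KP.StE
import Pool.Agent.Helper68.KP.Defs

/-!
# Project KP (MP_26be5b_ag), chapter E: assembly of `StONE` from the statements of `StE.lean`
-/

set_option autoImplicit false

namespace Pool.Agent.Helper85.KP

open MeasureTheory Filter Pool.Agent.Helper52.KP Pool.Agent.Helper68.KP
open scoped ContDiff ComplexOrder Topology

/-- the equality case for a sequence of levels -/
def StSQ : Prop := ∀ (C : Cone) (r Λ : ℕ) (k N : ℕ → ℕ)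
  (s : ∀ i, Fin (N i) → MvPolynomial (Fin C.m) ℂ) (lam : ∀ i, Fin (N i) → ℕ),
  Good C → SQ C r Λ k N s lam →
  ∃ W : ∀ k, EE C r k →ₗ[ℂ] EE C r k, DD (EE C r) W ∧ SA (ipc C) W ∧
    ∀ ε : ℝ, 0 < ε → ∃ᶠ i in atTop, ∀ h : ∀ j, s i j ∈ C.R (C.n * r * k i),
      ∑ j, (ipp C ((lam i j : ℂ) • s i j -
          (W (k i) ⟨s i j, h j⟩ : MvPolynomial (Fin C.m) ℂ))
        ((lam i j : ℂ) • s i j - (W (k i) ⟨s i j, h j⟩ : MvPolynomial (Fin C.m) ℂ))).re ≤
        ε * (k i : ℝ) ^ 2 * N i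

theorem SQ.sub {C : Cone} {r Λ : ℕ} {k N : ℕ → ℕ}
    {s : ∀ i, Fin (N i) → MvPolynomial (Fin C.m) ℂ} {lam : ∀ i, Fin (N i) → ℕ}
    (h : SQ C r Λ k N s lam) {σ : ℕ → ℕ} (hσ : StrictMono σ) :
    SQ C r Λ (fun i => k (σ i)) (fun i => N (σ i)) (fun i => s (σ i)) (fun i => lam (σ i)) where
  hr := h.hr
  hΛ := h.hΛ
  kpos := fun _ => h.kpos _
  klim := h.klim.comp hσ.tendsto_atTop
  onb := fun _ => h.onb _
  bd := fun _ j => h.bd _ j
  slope := fun ε hε => hσ.tendsto_atTop.eventually (h.slope ε hε)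
  ber := h.ber.mono fun _ hz => hz.comp hσ.tendsto_atTop

theorem isOpen_U (C : Cone) : IsOpen C.U := by
  have : C.U = (fun z => ev C.Δ z) ⁻¹' {0}ᶜ := rfl
  rw [this]
  exact (isOpen_compl_singleton).preimage (MvPolynomial.continuous_eval _)

theorem diff_ev {m : ℕ} (P : MvPolynomial (Fin m) ℂ) : Differentiable ℂ fun z => ev P z := by
  unfold ev
  induction P using MvPolynomial.induction_on with
  | C a => simp
  | add p q hp hq =>
    have e : (fun z : Fin m → ℂ => MvPolynomial.eval z (p + q)) =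
        fun z => MvPolynomial.eval z p + MvPolynomial.eval z q := by funext z; simp
    rw [e]; exact hp.add hq
  | mul_X p i hp =>
    have h : Differentiable ℂ fun z : Fin m → ℂ => z i := differentiable_apply i
    have e : (fun z : Fin m → ℂ => MvPolynomial.eval z (p * MvPolynomial.X i)) =
        fun z => MvPolynomial.eval z p * z i := by funext z; simp
    rw [e]; exact hp.mul h

theorem transp {C : Cone} (W : ∀ k, C.R k →ₗ[ℂ] C.R k) {a b : ℕ} (e : a = b)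
    {p : MvPolynomial (Fin C.m) ℂ} (h : p ∈ C.R a) (h' : p ∈ C.R b) :
    (W a ⟨p, h⟩ : MvPolynomial (Fin C.m) ℂ) = W b ⟨p, h'⟩ := by
  subst e; rfl

theorem hSQ (hECS : StECS) (hEIN : StEIN) (hEHS : StEHS) (hEWT : StEWT) (hEGT : StEGT)
    (hERE : StERE) (hEBD : StEBD) (hESG : StESG) (hEVM : StEVM) (hELI : StELI) (hERI : StERI)
    (hEVS : StEVS) (hEFI : StEFI) : StSQ := by
  intro C r Λ k N s lam hC hq
  obtain ⟨t, ht0, htl, htU⟩ := hEGT C r Λ k N s lam hC hq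
  have hD : ∀ i, 0 < C.n * r * k i := fun i =>
    Nat.mul_pos (Nat.mul_pos hC.hn hq.hr) (hq.kpos i)
  have hbd := hEBD C r Λ k N s lam hC hq t ht0 htl (htU 1 one_pos)
  have hcs := fun i => hECS C hC (C.n * r * k i) (N i) (hD i) (s i) (lam i) (hq.onb i).span (t i)
    (ht0 i)
  obtain ⟨σ, g₀, hσ, hg₀⟩ := hERE C.m C.U (isOpen_U C)
    (fun i => psi1 C (C.n * r * k i) (s i) (lam i) (t i)) (fun i => (hcs i).2.2.1) (by
      intro K hK hKc
      obtain ⟨B, hB⟩ := hbd K hK hKc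
      exact ⟨B, hB.mono fun i hi => ⟨fun z hz => (hi.1 z hz).1, hi.2⟩⟩)
  have hq' := hq.sub hσ
  have ht0' : ∀ i, 0 ≤ t (σ i) := fun i => ht0 _
  have htl' : Tendsto (fun i => t (σ i)) atTop (𝓝 0) := htl.comp hσ.tendsto_atTop
  have htU' : ∀ ε : ℝ, 0 < ε → ∀ᶠ i in atTop,
      U2 C (C.n * r * k (σ i)) (s (σ i)) (lam (σ i)) (t (σ i)) ≤ ε := fun ε hε =>
    hσ.tendsto_atTop.eventually (htU ε hε)
  obtain ⟨g, B, hgm, hgB, hgh, hgl⟩ := hESG C r Λ _ _ _ _ hC hq' _ ht0' htl' g₀ hg₀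
  obtain ⟨hV1, hV2⟩ := hEVM C r Λ _ _ _ _ hC hq' _ ht0' htl' htU' g B hgm hgB hgh hgl
  have hgB' : ∀ z ∈ C.U, |g z| ≤ B * C.u z := fun z hz => by
    rw [abs_of_nonneg (hgB z hz).1]; exact (hgB z hz).2
  obtain ⟨_, hpsi, _, hup⟩ := hEWT C r Λ _ _ _ _ hC hq' _ ht0' htl'
  have hV0 : 0 ≤ Vm C g := by
    refine le_of_forall_pos_le_add fun ε hε => ?_
    obtain ⟨i, hi⟩ := (hV1 ε hε).exists
    refine le_trans ?_ hi
    refine setIntegral_nonneg (isOpen_U C).measurableSet fun z hz => ?_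
    exact mul_nonneg (mul_nonneg ((hcs (σ i)).2.2.2.2 z hz).2.2.1 (Real.exp_pos _).le)
      (sq_nonneg _)
  have hlim : ∀ η : Fin C.m → (Fin C.m → ℂ) → ℂ, (∀ j, Tst C.U (η j)) →
      ‖∫ z in C.U, (g z : ℂ) * ∑ j, dz j (η j) z‖ ^ 2 ≤
        Vm C g * ∫ z in C.U, hf (hes C.u z) (fun j => η j z) *
          (Real.exp (C.u z) / ‖ev C.J z‖ ^ 2) := by
    intro η hη
    refine hELI C.m C.U (isOpen_U C) C.u (fun z => ev C.J z) hC.usm
      (diff_ev C.J).differentiableOn hC.J0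
      (fun i => psi C (C.n * r * k (σ i)) (s (σ i)) (lam (σ i)) (t (σ i)))
      (fun i => psi1 C (C.n * r * k (σ i)) (s (σ i)) (lam (σ i)) (t (σ i)))
      (fun i => psi2 C (C.n * r * k (σ i)) (s (σ i)) (lam (σ i)) (t (σ i)))
      g (Vm C g) (fun i => (hcs (σ i)).2.1) (fun i => (hcs (σ i)).2.2.1)
      (fun i => (hcs (σ i)).2.2.2.1)
      (fun i z hz => ⟨((hcs (σ i)).2.2.2.2 z hz).2.1, ((hcs (σ i)).2.2.2.2 z hz).2.2.1,
        ((hcs (σ i)).2.2.2.2 z hz).2.2.2.1⟩)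
      (fun i => (hEIN C hC _ _ (hD (σ i)) _ _ (hq.onb (σ i)).span _ (ht0 (σ i))).2.2.2.2.2.1)
      hV1 (hpsi.mono fun z hz => hz.2) hgl ?_ hup η hη
    intro K hK hKc
    obtain ⟨B', hB'⟩ := hbd K hK hKc
    exact ⟨B', (hσ.tendsto_atTop.eventually hB').mono fun i hi z hz => hi.1 z hz⟩
  obtain ⟨c, β, hβ, hβi, hβw⟩ := hERI C hC g B (Vm C g) hgm hgB' hV0 hgh
    (fun c => (hV2 c).2) hlim
  obtain ⟨W, hW1, hW2, hW3⟩ := hEVS C hC g B c hgm hgB' hgh β hβ hβi hβw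
  refine ⟨fun k => W (C.n * r * k), ?_, ?_, ?_⟩
  · intro k k' f f' h hh
    have e : C.n * r * (k + k') = C.n * r * k + C.n * r * k' := mul_add _ _ _
    have h' : (h : MvPolynomial (Fin C.m) ℂ) ∈ C.R (C.n * r * k + C.n * r * k') := e ▸ h.2
    have := hW1 (C.n * r * k) (C.n * r * k') f f' ⟨h, h'⟩ hh
    rw [← this]
    exact transp W e h.2 h'
  · intro k f h
    exact hW2 _ f h
  · intro ε hε
    have hfin := hEFI C r Λ _ _ _ _ hC hq' _ ht0' htl' g B c hgm hgB hgh hgl ε hε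
    have hall : ∀ᶠ i in atTop, ∀ h : ∀ j, s (σ i) j ∈ C.R (C.n * r * k (σ i)),
        ∑ j, (ipp C ((lam (σ i) j : ℂ) • s (σ i) j -
            (W (C.n * r * k (σ i)) ⟨s (σ i) j, h j⟩ : MvPolynomial (Fin C.m) ℂ))
          ((lam (σ i) j : ℂ) • s (σ i) j -
            (W (C.n * r * k (σ i)) ⟨s (σ i) j, h j⟩ : MvPolynomial (Fin C.m) ℂ))).re ≤
          ε * (k (σ i) : ℝ) ^ 2 * N (σ i) := by
      refine hfin.mono fun i hi h => le_trans ?_ hi
      refine hEHS C hC _ _ (hD (σ i)) (s (σ i)) (lam (σ i)) (hq.onb (σ i)) g B c hgm hgB'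
        (fun j => (W (C.n * r * k (σ i)) ⟨s (σ i) j, h j⟩ : MvPolynomial (Fin C.m) ℂ))
        (fun j => (W (C.n * r * k (σ i)) ⟨s (σ i) j, h j⟩).2) ?_
      intro j f hf
      exact hW3 (C.n * r * k (σ i)) ⟨s (σ i) j, h j⟩ ⟨f, hf⟩
    have := hall.frequently
    exact hσ.tendsto_atTop.frequently this

theorem ipp_sum (hIPP : Pool.Agent.Helper52.KP.StIPP) {C : Cone} (hC : Good C) {k : ℕ} {ι : Type}
    (S : Finset ι) (c : ι → ℂ) (f : ι → MvPolynomial (Fin C.m) ℂ) (hf : ∀ i, f i ∈ C.R k)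
    {h : MvPolynomial (Fin C.m) ℂ} (hh : h ∈ C.R k) :
    ipp C (∑ i ∈ S, c i • f i) h = ∑ i ∈ S, c i * ipp C (f i) h := by
  classical
  obtain ⟨hadd, hsmul, _⟩ := hIPP C hC
  induction S using Finset.induction_on with
  | empty =>
    have := hsmul k 0 (C.R k).zero_mem h hh 0
    simpa using this
  | insert a S ha ih =>
    rw [Finset.sum_insert ha, Finset.sum_insert ha, hadd k _ ((C.R k).smul_mem _ (hf a)) _
      ((C.R k).sum_mem fun i _ => (C.R k).smul_mem _ (hf i)) h hh, hsmul k _ (hf a) h hh, ih]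

theorem hONE (hIPP : Pool.Agent.Helper52.KP.StIPP) (hSQ : StSQ) (hESL : StESL) (hECV : StECV)
    (hADP : StADP) (hEIB : StEIB) : StONE := by
  intro C hC r F hF a₀ a₁ b₀ b₁ hEx heq ε hε
  by_contra hcon
  push Not at hcon
  obtain ⟨Λ, hΛ, hbd, hsl⟩ := hESL C hC r F hF a₀ a₁ b₀ b₁ hEx heq
  choose k hk F' hF' hfr hbad using fun i : ℕ => hcon (i + 1)
  have hkpos : ∀ i, 0 < k i := fun i => lt_of_lt_of_le (Nat.succ_pos i) (hk i)
  have hklim : Tendsto k atTop atTop :=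
    tendsto_atTop_mono (fun i => (Nat.le_succ i).trans (hk i)) tendsto_id
  have hb : ∀ i, ∃ (N : ℕ) (s : Fin N → MvPolynomial (Fin C.m) ℂ) (lam : Fin N → ℕ),
      Adp C r (F' i) (k i) s lam ∧ ONB C (C.n * r * k i) s := by
    intro i
    obtain ⟨L, hL⟩ := hADP C hC r (F' i) (hF' i)
    obtain ⟨_, N, s, lam, h1, h2, _⟩ := hL (k i)
    exact ⟨N, s, lam, h1, h2⟩
  choose N s lam hadp honb using hb
  have hDlim : Tendsto (fun i => C.n * r * k i) atTop atTop := by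
    refine tendsto_atTop_mono (fun i => ?_) hklim
    have : 0 < C.n * r := Nat.mul_pos hC.hn hF.hr
    nlinarith [hkpos i]
  obtain ⟨σ, hσ, hber⟩ := hECV C hC (fun i => C.n * r * k i) N s hDlim honb
  have hq : SQ C r Λ (fun i => k (σ i)) (fun i => N (σ i)) (fun i => s (σ i))
      (fun i => lam (σ i)) :=
    { hr := hF.hr
      hΛ := hΛ
      kpos := fun i => hkpos _
      klim := hklim.comp hσ.tendsto_atTop
      onb := fun i => honb _
      bd := fun i j => hbd (F' (σ i)) (hF' _) (hfr _) (k (σ i)) _ (s (σ i)) (lam (σ i))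
        (hkpos _) (hadp _) j
      slope := by
        intro δ hδ
        obtain ⟨k₀, hk₀⟩ := hsl δ hδ
        have : ∀ᶠ i in atTop, k₀ ≤ k (σ i) :=
          (hklim.comp hσ.tendsto_atTop).eventually (eventually_ge_atTop k₀)
        exact this.mono fun i hi t ht => hk₀ (k (σ i)) hi (F' (σ i)) (hF' _) (hfr _) _
          (s (σ i)) (lam (σ i)) (hadp _) (honb _) t ht
      ber := hber }
  obtain ⟨W, hW1, hW2, hW3⟩ := hSQ C r Λ _ _ _ _ hC hq
  obtain ⟨i, hi⟩ := (hW3 ε hε).exists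
  obtain ⟨N', s', lam', hOA, hlt⟩ := hbad (σ i) W hW1 hW2
  have hmem : ∀ j, s (σ i) j ∈ C.R (C.n * r * k (σ i)) := fun j => by
    rw [← (honb (σ i)).span]; exact Submodule.subset_span ⟨j, rfl⟩
  have hmem' : ∀ j, ((s' j : EE C r (k (σ i))) : MvPolynomial (Fin C.m) ℂ) ∈
      C.R (C.n * r * k (σ i)) := fun j => (s' j).2
  have hli : LinearIndependent ℂ (fun j => ((s' j : EE C r (k (σ i))) :
      MvPolynomial (Fin C.m) ℂ)) := by
    rw [linearIndependent_iff']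
    intro S c hc j hj
    have h1 := ipp_sum hIPP hC S c (fun j => ((s' j : EE C r (k (σ i))) :
      MvPolynomial (Fin C.m) ℂ)) hmem' (hmem' j)
    have h0 : ipp C 0 (s' j : MvPolynomial (Fin C.m) ℂ) = 0 := by
      have := (hIPP C hC).2.1 (C.n * r * k (σ i)) 0 (C.R _).zero_mem _ (hmem' j) 0
      simpa using this
    rw [hc, h0] at h1
    have h2 : ∀ l, ipp C (s' l : MvPolynomial (Fin C.m) ℂ) (s' j : MvPolynomial (Fin C.m) ℂ) =
        if l = j then 1 else 0 := fun l => hOA.on l j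
    simp only [h2, mul_ite, mul_one, mul_zero, Finset.sum_ite_eq', hj, if_true] at h1
    exact h1.symm
  have hadp' : Adp C r (F' (σ i)) (k (σ i))
      (fun j => ((s' j : EE C r (k (σ i))) : MvPolynomial (Fin C.m) ℂ)) lam' :=
    { li := hli, span := hOA.ad }
  obtain ⟨hNN, hsum⟩ := hEIB C hC r (k (σ i)) (N (σ i)) N' (F' (σ i)) (s (σ i)) (lam (σ i))
    (fun j => ((s' j : EE C r (k (σ i))) : MvPolynomial (Fin C.m) ℂ)) lam'
    ((hF' (σ i)).zero (k (σ i))) (hadp _) hadp' (honb (σ i)).on hOA.on (W (k (σ i))) hmem hmem'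
  have h1 := hi hmem
  rw [hsum] at h1
  have h2 : ∑ j, (ipc C ((lam' j : ℂ) • s' j - W (k (σ i)) (s' j) : EE C r (k (σ i)))
          ((lam' j : ℂ) • s' j - W (k (σ i)) (s' j) : EE C r (k (σ i)))).re ≤
      ε * (k (σ i) : ℝ) ^ 2 * N' := by
    have h3 : ε * (k (σ i) : ℝ) ^ 2 * (N (σ i) : ℝ) = ε * (k (σ i) : ℝ) ^ 2 * (N' : ℝ) := by
      rw [hNN]
    rw [← h3]
    exact h1
  exact absurd h2 (not_le.mpr hlt)

/-- `StIPP` in the form of chapter S -/
theorem hIPP' (hIPP : Pool.Agent.Helper52.KP.StIPP) : Pool.Agent.Helper68.KP.StIPP := by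
  intro C hC
  obtain ⟨h1, h2, h3, h4, _⟩ := hIPP C hC
  exact ⟨h1, fun k c f hf g hg => h2 k f hf g hg c, fun k f _ g _ => h3 f g,
    fun k f hf h0 => (h4 k f hf h0).1⟩

end Pool.Agent.Helper85.KP
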