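import Pool.Agent.Helper52.KP.Main
import Pool.Agent.Helper19.KP.M_EIN
import Pool.Agent.Helper29.KP.M_ERD
import Pool.Agent.Helper64.KP.M_EHS
import Pool.Agent.Helper60.KP.M_EIB
import Pool.Agent.Helper33.KP.M_EHM
import Pool.Agent.Helper87.KP.M_ECV
import Pool.Agent.Helper21.KP.M_EWT
import Pool.Agent.Helper99.KP.M_EVA
import Pool.Agent.Helper53.KP.M_ETM
import Pool.Agent.Helper41.KP.M_EGT
import Pool.Agent.Helper76.KP.M_ERE
import Pool.Agent.Helper28.KP.M_EBD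
import Pool.Agent.Helper9.KP.M_ESG
import Pool.Agent.Helper13.KP.M_ERI
import Pool.Agent.Helper81.KP.M_EVI
import Pool.Agent.Helper2.KP.M_EVS
import Pool.Agent.Helper98.KP.M_EPO
import Pool.Agent.Helper38.KP.M_ECS
import Pool.Agent.Helper47.KP.M_EUP
import Pool.Agent.Helper32.KP.M_EVM
import Pool.Agent.Helper62.KP.M_ELI
import Pool.Agent.Helper15.KP.M_EPG
import Pool.Agent.Helper89.KP.M_EVH
import Pool.Agent.Helper18.KP.M_EVF
import Pool.Agent.Helper7.KP.M_EFI
import Pool.Agent.Helper58.KP.M_ESL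
import Pool.Agent.Helper85.KP.Asm

/-!
# Project KP (MP_26be5b_ag), chapter E: assembly

The estimate `StONE` of the equality case, from `StALG`.
-/

set_option autoImplicit false

namespace Pool.Agent.Helper85.KP

open MeasureTheory Filter Pool.Agent.Helper52.KP

theorem eEPO : StEPO := Pool.Agent.Helper98.KP.hEPO
theorem eECS : StECS := Pool.Agent.Helper38.KP.hECS mCAL eEPO
theorem eEIN : StEIN := Pool.Agent.Helper19.KP.hEIN mSCA mRAD mDIF eEPO
theorem eERD : StERD := Pool.Agent.Helper29.KP.hERD mSCA mMOM mVOL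
theorem eEHS : StEHS := Pool.Agent.Helper64.KP.hEHS0 mMOM
theorem eEIB : StEIB := Pool.Agent.Helper60.KP.hEIB mMOM mIPP mNUL
theorem eEUP : StEUP := Pool.Agent.Helper47.KP.hEUP mSCA mSUP mMOM mVOL
theorem eEHM : StEHM := Pool.Agent.Helper33.KP.hEHM
theorem eECV : StECV := Pool.Agent.Helper87.KP.hECV mBER eEHM
theorem eEWT : StEWT := Pool.Agent.Helper21.KP.hEWT mBLB eEUP eEPO mVOL eEIN
theorem eEVA : StEVA := Pool.Agent.Helper99.KP.hEVA eEWT eEIN mVOL
theorem eETM : StETM := Pool.Agent.Helper53.KP.hETM eEIN eEVA eEPO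
theorem eEGT : StEGT := Pool.Agent.Helper41.KP.hEGT eEIN
theorem eERE : StERE := Pool.Agent.Helper76.KP.hERE mWKC mMEX mCAL
theorem eEBD : StEBD := Pool.Agent.Helper28.KP.hEBD eECS eEIN eEWT eEPO eEVA mIBP mCAL
theorem eESG : StESG := Pool.Agent.Helper9.KP.hESG eEWT eECS eEPO
theorem eEVM : StEVM := Pool.Agent.Helper32.KP.hEVM eEIN eEVA eEPO mSCA mVOL eEWT
theorem eELI : StELI := Pool.Agent.Helper62.KP.hELI mIBP mCAL
theorem eEPG : StEPG := Pool.Agent.Helper15.KP.hEPG mCUT mMEX mMO1 mMO2 mMOM mCAL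
theorem eERI : StERI := Pool.Agent.Helper13.KP.hERI mRHU eEPG mWEY mMOM
theorem eEVH : StEVH := Pool.Agent.Helper89.KP.hEVH mCAL mIBP
theorem eEVF : StEVF := Pool.Agent.Helper18.KP.hEVF
theorem eEVI : StEVI := Pool.Agent.Helper81.KP.hEVI mCUT mMOM mCAL
theorem eEVS : StEVS := Pool.Agent.Helper2.KP.hEVS eEVH eEVF eEVI mIPP
theorem eEFI : StEFI := Pool.Agent.Helper7.KP.hEFI eERD eETM eEPO eEWT mBER mVOL
theorem eSQ : StSQ :=
  hSQ eECS eEIN eEHS eEWT eEGT eERE eEBD eESG eEVM eELI eERI eEVS eEFI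

theorem eESL (hALG : StALG) : StESL :=
  Pool.Agent.Helper58.KP.hESL hALG mLEV mDER mUPB mCVX mDIF mADP mNUL

/-- CHAPTER E: the estimate of the equality case -/
theorem eONE (hALG : StALG) : Pool.Agent.Helper68.KP.StONE :=
  hONE mIPP eSQ (eESL hALG) eECV mADP eEIB

/-- `StIPP` in the form of chapter S -/
theorem eIPP : Pool.Agent.Helper68.KP.StIPP := hIPP' mIPP

end Pool.Agent.Helper85.KP
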