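import Pool.Agent.Helper93.KP.St

/-!
# Project KP: module DIA
-/

set_option autoImplicit false

namespace Pool.Agent.Helper85.KP

open Finset Filter Topology Pool.Agent.Helper93.KP

private theorem fib (P : ℕ) (hP : 1 ≤ P)
    (Z : Finset (ℕ × ℕ × ℕ)) (hZ : ∀ w ∈ Z, w.1 * w.2.1 * w.2.2 = P) :
    Z.card ≤ P.divisors.card * P.divisors.card := by
  classical
  rw [← Finset.card_product]
  refine Finset.card_le_card_of_injOn (fun w => (w.1, w.2.1)) ?_ ?_
  · intro w hw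
    have h := hZ w hw
    simp only [Finset.coe_product, Set.mem_prod, Finset.mem_coe, Nat.mem_divisors]
    refine ⟨⟨⟨w.2.1 * w.2.2, ?_⟩, by omega⟩, ⟨⟨w.1 * w.2.2, ?_⟩, by omega⟩⟩
    · rw [← h]; ring
    · rw [← h]; ring
  · intro w hw w' hw' he
    have h := hZ w hw
    have h' := hZ w' hw'
    simp only [Prod.mk.injEq] at he
    obtain ⟨e1, e2⟩ := he
    have hpos : 0 < w.1 * w.2.1 := by
      rcases Nat.eq_zero_or_pos (w.1 * w.2.1) with h0 | h0
      · rw [h0, zero_mul] at h; omega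
      · exact h0
    have e3 : w.2.2 = w'.2.2 := by
      have : w.1 * w.2.1 * w.2.2 = w.1 * w.2.1 * w'.2.2 := by
        rw [h, ← h', e1, e2]
      exact Nat.eq_of_mul_eq_mul_left hpos this
    exact Prod.ext e1 (Prod.ext e2 e3)

theorem hDIA : StDIA := by
  classical
  intro H U V T hT
  set S := ((Icc 1 H ×ˢ (Icc 1 U ×ˢ Icc 1 V)) ×ˢ (Icc 1 H ×ˢ (Icc 1 U ×ˢ Icc 1 V))).filter
    (fun v : (ℕ × ℕ × ℕ) × (ℕ × ℕ × ℕ) =>
      v.1.1 * v.2.2.1 * v.2.2.2 = v.2.1 * v.1.2.1 * v.1.2.2) with hS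
  let f : (ℕ × ℕ × ℕ) × (ℕ × ℕ × ℕ) → ℕ × ℕ × ℕ := fun v => (v.1.1, v.2.2.1, v.2.2.2)
  set D := Icc 1 H ×ˢ (Icc 1 U ×ˢ Icc 1 V) with hD
  have hmap : ∀ v ∈ S, f v ∈ D := by
    intro v hv
    rw [hS, Finset.mem_filter, Finset.mem_product] at hv
    obtain ⟨⟨h1, h2⟩, _⟩ := hv
    rw [hD, Finset.mem_product, Finset.mem_product] at h1 h2 ⊢
    exact ⟨h1.1, h2.2.1, h2.2.2⟩
  have hcard : S.card = ∑ b ∈ D, (S.filter (fun v => f v = b)).card :=
    Finset.card_eq_sum_card_fiberwise hmap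
  have hfib : ∀ b ∈ D, ((S.filter (fun v => f v = b)).card : ℝ) ≤ T ^ 2 := by
    intro b hb
    rw [hD, Finset.mem_product, Finset.mem_product, Finset.mem_Icc, Finset.mem_Icc,
      Finset.mem_Icc] at hb
    obtain ⟨⟨b1, b1'⟩, ⟨b2, b2'⟩, ⟨b3, b3'⟩⟩ := hb
    have hP1 : 1 ≤ b.1 * b.2.1 * b.2.2 := Nat.mul_pos (Nat.mul_pos b1 b2) b3
    have hP2 : b.1 * b.2.1 * b.2.2 ≤ H * U * V := Nat.mul_le_mul (Nat.mul_le_mul b1' b2') b3'
    have hc : (S.filter (fun v => f v = b)).card ≤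
        (b.1 * b.2.1 * b.2.2).divisors.card * (b.1 * b.2.1 * b.2.2).divisors.card := by
      let g : (ℕ × ℕ × ℕ) × (ℕ × ℕ × ℕ) → ℕ × ℕ × ℕ := fun v => (v.2.1, v.1.2.1, v.1.2.2)
      have hinj : Set.InjOn g (S.filter (fun v => f v = b) : Finset _) := by
        intro v hv w hw he
        rw [Finset.mem_coe, Finset.mem_filter] at hv hw
        have hv2 := hv.2
        have hw2 := hw.2
        rw [← hw2] at hv2
        simp only [f, Prod.mk.injEq] at hv2
        simp only [g, Prod.mk.injEq] at he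
        obtain ⟨p1, p2, p3⟩ := hv2
        obtain ⟨q1, q2, q3⟩ := he
        exact Prod.ext (Prod.ext p1 (Prod.ext q2 q3)) (Prod.ext q1 (Prod.ext p2 p3))
      rw [← Finset.card_image_of_injOn hinj]
      refine fib _ hP1 _ ?_
      intro w hw
      rw [Finset.mem_image] at hw
      obtain ⟨v, hv, rfl⟩ := hw
      rw [Finset.mem_filter, hS, Finset.mem_filter] at hv
      obtain ⟨⟨_, h1⟩, h2⟩ := hv
      subst h2
      simp only [f, g]
      exact h1.symm
    have hTb := hT _ hP1 hP2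
    calc ((S.filter (fun v => f v = b)).card : ℝ)
        ≤ (((b.1 * b.2.1 * b.2.2).divisors.card * (b.1 * b.2.1 * b.2.2).divisors.card : ℕ) : ℝ) := by
          exact_mod_cast hc
      _ = ((b.1 * b.2.1 * b.2.2).divisors.card : ℝ) ^ 2 := by push_cast; ring
      _ ≤ T ^ 2 := pow_le_pow_left₀ (Nat.cast_nonneg _) hTb 2
  have hDc : (D.card : ℝ) = (H : ℝ) * U * V := by
    rw [hD, Finset.card_product, Finset.card_product]
    simp only [Nat.card_Icc, Nat.add_sub_cancel]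
    push_cast
    ring
  rw [hcard]
  push_cast
  calc ∑ b ∈ D, ((S.filter (fun v => f v = b)).card : ℝ) ≤ ∑ _b ∈ D, T ^ 2 :=
        Finset.sum_le_sum hfib
    _ = T ^ 2 * ((H : ℝ) * U * V) := by
        rw [Finset.sum_const, nsmul_eq_mul, hDc]; ring

end Pool.Agent.Helper85.KP
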