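import Pool.Agent.Helper93.KP.St

/-!
# Project KP: module FNP
-/

set_option autoImplicit false

namespace Pool.Agent.Helper85.KP

open Finset Filter Topology Pool.Agent.Helper93.KP

private theorem ev (r : ℝ) (hr : 0 < r) :
    ∀ᶠ N : ℕ in atTop, Real.log N + 2 ≤ (N : ℝ) ^ r := by
  have h1 : ∀ᶠ x : ℝ in atTop, Real.log x ≤ (1 / 2) * x ^ r := by
    have h := (isLittleO_log_rpow_atTop hr).bound (c := 1 / 2) (by norm_num)
    filter_upwards [h, eventually_ge_atTop 1] with x hx h1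
    rw [Real.norm_eq_abs, Real.norm_eq_abs, abs_of_nonneg (Real.log_nonneg h1),
      abs_of_nonneg (Real.rpow_nonneg (by linarith) r)] at hx
    exact hx
  have h2 : ∀ᶠ x : ℝ in atTop, (4 : ℝ) ≤ x ^ r :=
    (tendsto_rpow_atTop hr).eventually_ge_atTop 4
  have h3 : ∀ᶠ x : ℝ in atTop, Real.log x + 2 ≤ x ^ r := by
    filter_upwards [h1, h2] with x a b
    linarith
  exact tendsto_natCast_atTop_atTop.eventually h3

private theorem term_le (κ : ℝ) (hκ : κ ≤ 1) (s N : ℕ) (hs : s ≤ Nat.log 4 N) (hN : 1 ≤ N) :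
    ((2 : ℝ) ^ s) ^ (2 - κ) ≤ (N : ℝ) ^ (1 - κ / 2) := by
  have h4 : (4 : ℕ) ^ s ≤ N :=
    (Nat.pow_le_pow_right (by norm_num) hs).trans (Nat.pow_log_le_self 4 (by omega))
  have h4' : (4 : ℝ) ^ s ≤ N := by exact_mod_cast h4
  have e : ((2 : ℝ) ^ s) ^ (2 - κ) = ((4 : ℝ) ^ s) ^ (1 - κ / 2) := by
    have h0 : (0 : ℝ) ≤ (2 : ℝ) ^ s := by positivity
    have : (4 : ℝ) ^ s = ((2 : ℝ) ^ s) ^ (2 : ℝ) := by
      rw [Real.rpow_two, ← pow_mul, mul_comm s 2, pow_mul]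
      norm_num
    rw [this, ← Real.rpow_mul h0]
    congr 1
    ring
  rw [e]
  exact Real.rpow_le_rpow (by positivity) h4' (by linarith)

private theorem log_le (N : ℕ) (hN : 1 ≤ N) : (Nat.log 4 N : ℝ) ≤ Real.log N := by
  have h4 : (4 : ℕ) ^ (Nat.log 4 N) ≤ N := Nat.pow_log_le_self 4 (by omega)
  have h4' : (4 : ℝ) ^ (Nat.log 4 N) ≤ N := by exact_mod_cast h4
  have h := Real.log_le_log (by positivity) h4'
  rw [Real.log_pow] at h
  have h1 : (1 : ℝ) ≤ Real.log 4 := by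
    rw [Real.le_log_iff_exp_le (by norm_num)]
    linarith [Real.exp_one_lt_d9]
  nlinarith [Nat.cast_nonneg (α := ℝ) (Nat.log 4 N)]

theorem hFNP (hA : StFNA) : StFNP := by
  classical
  intro ε hε
  obtain ⟨κ', hκ', s₀, hs⟩ := hA ε hε
  choose! E hE1 hE2 using hs
  set κ₁ := min κ' 1 with hκ₁
  have hκ₁pos : 0 < κ₁ := lt_min hκ' one_pos
  have hκ₁le : κ₁ ≤ 1 := min_le_right _ _
  have hκ₁le' : κ₁ ≤ κ' := min_le_left _ _
  obtain ⟨N₁, hN₁⟩ := eventually_atTop.1 (ev (κ₁ / 4) (by positivity))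
  refine ⟨κ₁ / 4, by positivity, max N₁ ((4 ^ s₀ + 1) ^ 2), ?_⟩
  intro N hN
  have hNa : N₁ ≤ N := le_trans (le_max_left _ _) hN
  have hNb : (4 ^ s₀ + 1) ^ 2 ≤ N := le_trans (le_max_right _ _) hN
  have hN1 : 1 ≤ N := le_trans (Nat.one_le_pow _ _ (by positivity)) hNb
  have hN1r : (1 : ℝ) ≤ N := by exact_mod_cast hN1
  have hsq : 4 ^ s₀ + 1 ≤ Nat.sqrt N := Nat.le_sqrt'.2 hNb
  have hp4 : 1 ≤ 4 ^ s₀ := Nat.one_le_pow _ _ (by norm_num)
  set R := (range (Nat.log 4 N + 1)).filter (fun s => s₀ ≤ s) with hR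
  have hsub : (Icc 1 N).filter (fun n => ((ks ε n).card : ℝ) < (n : ℝ) ^ (κ₁ / 4)) ⊆
      Icc 1 (Nat.sqrt N) ∪ R.biUnion E := by
    intro n hn
    rw [Finset.mem_filter, Finset.mem_Icc] at hn
    obtain ⟨⟨hn1, hnN⟩, hlt⟩ := hn
    rw [Finset.mem_union, Finset.mem_Icc, Finset.mem_biUnion]
    by_cases hc : n ≤ Nat.sqrt N
    · exact Or.inl ⟨hn1, hc⟩
    · right
      push Not at hc
      have hn2 : 4 ^ s₀ + 1 < n := lt_of_le_of_lt hsq hc
      have hn0 : n - 1 ≠ 0 := by omega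
      refine ⟨Nat.log 4 (n - 1), ?_, ?_⟩
      · rw [hR, Finset.mem_filter, Finset.mem_range]
        refine ⟨Nat.lt_succ_of_le (Nat.log_mono_right (by omega)), ?_⟩
        exact Nat.le_log_of_pow_le (by norm_num) (by omega)
      · by_contra hnE
        have hs0 : s₀ ≤ Nat.log 4 (n - 1) := Nat.le_log_of_pow_le (by norm_num) (by omega)
        have hp : (2 ^ Nat.log 4 (n - 1)) ^ 2 = 4 ^ Nat.log 4 (n - 1) := by
          rw [← pow_mul, mul_comm, pow_mul]; norm_num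
        have hm : n ∈ NN (2 ^ Nat.log 4 (n - 1)) := by
          unfold NN
          rw [Finset.mem_Ioc, hp]
          have h1 : 4 ^ Nat.log 4 (n - 1) ≤ n - 1 := Nat.pow_log_le_self 4 hn0
          have h2 : n - 1 < 4 ^ (Nat.log 4 (n - 1) + 1) := Nat.lt_pow_succ_log_self (by norm_num) _
          rw [pow_succ] at h2
          omega
        have h3 := hE2 (Nat.log 4 (n - 1)) hs0 n hm hnE
        have hn1r : (1 : ℝ) ≤ n := by exact_mod_cast hn1
        have h4 : (n : ℝ) ^ (κ₁ / 4) ≤ (n : ℝ) ^ κ' :=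
          Real.rpow_le_rpow_of_exponent_le hn1r (by linarith)
        linarith
  have hc1 := Finset.card_le_card hsub
  have hc2 := Finset.card_union_le (Icc 1 (Nat.sqrt N)) (R.biUnion E)
  have hc3 : ((R.biUnion E).card : ℝ) ≤ (Real.log N + 1) * (N : ℝ) ^ (1 - κ₁ / 2) := by
    have h1 : (R.biUnion E).card ≤ ∑ s ∈ R, (E s).card := Finset.card_biUnion_le
    have h2 : ((∑ s ∈ R, (E s).card : ℕ) : ℝ) ≤ ∑ _s ∈ R, (N : ℝ) ^ (1 - κ₁ / 2) := by
      push_cast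
      refine Finset.sum_le_sum fun s hs => ?_
      rw [hR, Finset.mem_filter, Finset.mem_range] at hs
      refine (hE1 s hs.2).trans ?_
      refine le_trans ?_ (term_le κ₁ hκ₁le s N (by omega) hN1)
      exact Real.rpow_le_rpow_of_exponent_le (one_le_pow₀ (by norm_num)) (by linarith)
    have h3 : (R.card : ℝ) ≤ Real.log N + 1 := by
      have : R.card ≤ Nat.log 4 N + 1 := by
        rw [hR]
        exact (Finset.card_filter_le _ _).trans (by rw [Finset.card_range])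
      have h' : (R.card : ℝ) ≤ (Nat.log 4 N : ℝ) + 1 := by exact_mod_cast this
      linarith [log_le N hN1]
    rw [Finset.sum_const, nsmul_eq_mul] at h2
    calc ((R.biUnion E).card : ℝ) ≤ ((∑ s ∈ R, (E s).card : ℕ) : ℝ) := by exact_mod_cast h1
      _ ≤ _ := h2
      _ ≤ _ := mul_le_mul_of_nonneg_right h3 (by positivity)
  have hc4 : ((Icc 1 (Nat.sqrt N)).card : ℝ) ≤ (N : ℝ) ^ (1 - κ₁ / 2) := by
    rw [Nat.card_Icc, Nat.add_sub_cancel]
    have h1 : (Nat.sqrt N : ℝ) ≤ √(N : ℝ) := Real.nat_sqrt_le_real_sqrt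
    rw [Real.sqrt_eq_rpow] at h1
    exact h1.trans (Real.rpow_le_rpow_of_exponent_le hN1r (by linarith))
  have hfin : (Real.log N + 2) * (N : ℝ) ^ (1 - κ₁ / 2) ≤ (N : ℝ) ^ (1 - κ₁ / 4) := by
    have h1 := hN₁ N hNa
    calc (Real.log N + 2) * (N : ℝ) ^ (1 - κ₁ / 2) ≤ (N : ℝ) ^ (κ₁ / 4) * (N : ℝ) ^ (1 - κ₁ / 2) :=
          mul_le_mul_of_nonneg_right h1 (by positivity)
      _ = (N : ℝ) ^ (1 - κ₁ / 4) := by
          rw [← Real.rpow_add (by linarith)]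
          congr 1
          ring
  have hc5 : (((Icc 1 N).filter (fun n => ((ks ε n).card : ℝ) < (n : ℝ) ^ (κ₁ / 4))).card : ℝ) ≤
      ((Icc 1 (Nat.sqrt N)).card : ℝ) + ((R.biUnion E).card : ℝ) := by
    exact_mod_cast hc1.trans hc2
  calc (((Icc 1 N).filter (fun n => ((ks ε n).card : ℝ) < (n : ℝ) ^ (κ₁ / 4))).card : ℝ)
      ≤ _ := hc5
    _ ≤ (N : ℝ) ^ (1 - κ₁ / 2) + (Real.log N + 1) * (N : ℝ) ^ (1 - κ₁ / 2) := add_le_add hc4 hc3
    _ = (Real.log N + 2) * (N : ℝ) ^ (1 - κ₁ / 2) := by ring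
    _ ≤ _ := hfin

end Pool.Agent.Helper85.KP
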