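import Pool.Agent.Helper52.KP.StN

/-!
# Project KP (MP_26be5b_ag), chapter E: closeness of a filtration with `DF = 0` to a derivation

For every statement `StXXX` prove `theorem hXXX : StXXX` in `Pool/Agent/<You>/KP/M_XXX.lean`;
statements named in the docstring may be taken as hypotheses (`theorem hXXX (h1 : StYYY) : StXXX`).

Conventions.  `m = C.m = 2 n`, `D` is a degree, `s` an orthonormal basis (`ONB`) or a spanning family of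
`C.R D`, `lam j` the jumps, `P_t = PP s lam t = ∑ e^{t lam_j} |s_j|²`, `P' = PPn 1`, `P'' = PPn 2`.
`F1 = P'/P` is the mean and `F2 = P''/P - (P'/P)²` the variance of the jumps for the weights
`e^{t lam_j} |s_j|² / P`; both are homogeneous of degree `0`.
`ψ = psi = (P / KD)^{1/(2D)}` is homogeneous of degree one, `psi1 = ψ'`, `psi2 = ψ''` (derivatives in
`t`).  `S1 = {z ∈ U : u < 1}`, `wt = (ψ / u)^{-m}`.
-/

set_option autoImplicit false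

namespace Pool.Agent.Helper85.KP

open MeasureTheory Filter Pool.Agent.Helper52.KP
open scoped ContDiff ComplexOrder Topology

/-- the constant with `PP s lam 0 = KD * berg * u ^ (2 D)` -/
noncomputable def KD (C : Cone) (D : ℕ) : ℝ :=
  (D : ℝ) ^ (C.m - 1) / ((2 * D + C.m - 1).factorial * (Real.pi / 2) ^ C.m)

/-- mean of the jumps -/
noncomputable def F1 {m N : ℕ} (s : Fin N → MvPolynomial (Fin m) ℂ) (lam : Fin N → ℕ) (t : ℝ)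
    (z : Fin m → ℂ) : ℝ := PPn 1 s lam t z / PP s lam t z

/-- variance of the jumps -/
noncomputable def F2 {m N : ℕ} (s : Fin N → MvPolynomial (Fin m) ℂ) (lam : Fin N → ℕ) (t : ℝ)
    (z : Fin m → ℂ) : ℝ := PPn 2 s lam t z / PP s lam t z - F1 s lam t z ^ 2

/-- the potential, homogeneous of degree one -/
noncomputable def psi (C : Cone) (D : ℕ) {N : ℕ} (s : Fin N → MvPolynomial (Fin C.m) ℂ)
    (lam : Fin N → ℕ) (t : ℝ) (z : Fin C.m → ℂ) : ℝ :=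
  (PP s lam t z / KD C D) ^ ((1 : ℝ) / (2 * D))

/-- its derivative in `t` -/
noncomputable def psi1 (C : Cone) (D : ℕ) {N : ℕ} (s : Fin N → MvPolynomial (Fin C.m) ℂ)
    (lam : Fin N → ℕ) (t : ℝ) (z : Fin C.m → ℂ) : ℝ :=
  psi C D s lam t z * (F1 s lam t z / (2 * D))

/-- its second derivative in `t` -/
noncomputable def psi2 (C : Cone) (D : ℕ) {N : ℕ} (s : Fin N → MvPolynomial (Fin C.m) ℂ)
    (lam : Fin N → ℕ) (t : ℝ) (z : Fin C.m → ℂ) : ℝ :=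
  psi C D s lam t z * (F2 s lam t z / (2 * D) + (F1 s lam t z / (2 * D)) ^ 2)

/-- weight for averages over `S1` -/
noncomputable def wt (C : Cone) (D : ℕ) {N : ℕ} (s : Fin N → MvPolynomial (Fin C.m) ℂ)
    (lam : Fin N → ℕ) (t : ℝ) (z : Fin C.m → ℂ) : ℝ :=
  (psi C D s lam t z / C.u z) ^ (-(C.m : ℝ))

/-- the unit sublevel set -/
def S1 (C : Cone) : Set (Fin C.m → ℂ) := {z | z ∈ C.U ∧ C.u z < 1}

/-- integral over `S1` -/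
noncomputable def I1 (C : Cone) (x : (Fin C.m → ℂ) → ℝ) : ℝ := ∫ z in S1 C, x z ∂C.nu

/-- weighted integral over `S1` -/
noncomputable def Iw (C : Cone) (D : ℕ) {N : ℕ} (s : Fin N → MvPolynomial (Fin C.m) ℂ)
    (lam : Fin N → ℕ) (t : ℝ) (x : (Fin C.m → ℂ) → ℝ) : ℝ :=
  ∫ z in S1 C, x z * wt C D s lam t z ∂C.nu

/-- the derivative of `- log ZZ` -/
noncomputable def UD (C : Cone) {N : ℕ} (s : Fin N → MvPolynomial (Fin C.m) ℂ)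
    (lam : Fin N → ℕ) (t : ℝ) : ℝ :=
  (∫ z in C.U, PPn 1 s lam t z * Real.exp (-PP s lam t z) * ‖ev C.J z‖ ^ 2) / C.ZZ s lam t

/-- the second derivative of `- log ZZ` -/
noncomputable def U2 (C : Cone) (D : ℕ) {N : ℕ} (s : Fin N → MvPolynomial (Fin C.m) ℂ)
    (lam : Fin N → ℕ) (t : ℝ) : ℝ :=
  (C.m / (2 * D) : ℝ) * (Iw C D s lam t (F2 s lam t) / Iw C D s lam t (fun _ => 1)) -
    (C.m / (2 * D) : ℝ) ^ 2 *
      (Iw C D s lam t (fun z => F1 s lam t z ^ 2) / Iw C D s lam t (fun _ => 1) -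
        (Iw C D s lam t (F1 s lam t) / Iw C D s lam t (fun _ => 1)) ^ 2)

/-- A sequence of levels `k i → ∞` with orthonormal bases and jumps such that the derivative of
`- log ZZ` is almost constant on `[0, ∞)`. -/
structure SQ (C : Cone) (r Λ : ℕ) (k N : ℕ → ℕ)
    (s : ∀ i, Fin (N i) → MvPolynomial (Fin C.m) ℂ) (lam : ∀ i, Fin (N i) → ℕ) : Prop where
  hr : 0 < r
  hΛ : 0 < Λ
  kpos : ∀ i, 0 < k i
  klim : Tendsto k atTop atTop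
  onb : ∀ i, ONB C (C.n * r * k i) (s i)
  bd : ∀ i j, lam i j ≤ Λ * k i
  slope : ∀ ε : ℝ, 0 < ε → ∀ᶠ i in atTop, ∀ t : ℝ, 0 ≤ t →
    UD C (s i) (lam i) t ≤ UD C (s i) (lam i) 0 + ε
  ber : ∀ᵐ z ∂volume.restrict C.U,
    Tendsto (fun i => C.berg (C.n * r * k i) (s i) z) atTop (𝓝 1)

/-! ### One level -/

/-- MODULE EPO (pointwise facts).
PROOF.  `PP > 0`: `sz z > 0` gives `i` with `X_i z ≠ 0`; `X_i ^ D ∈ R D` (`Good.XR`, `mul`, `one`) is a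
combination of the `s_j`, so some `s_j z ≠ 0`.  `1 ≤ e^{t lam_j} ≤ e^{tL}` gives the bounds of `PP`.  Put
`p_j t = e^{t lam_j} ‖s_j z‖² / PP t z`, so `∑ p_j = 1`, `F1 = ∑ p_j lam_j ∈ [0, L]` and
`F2 = ∑ p_j lam_j² - (∑ p_j lam_j)² = (1/2) ∑ ∑ p_j p_l (lam_j - lam_l)² ∈ [0, L²]`.
`d/dt PPn n = PPn (n+1)`, so `d/dt F1 = F2 ≥ 0` (quotient rule) and `F1` is nondecreasing in `t`.
`p_j t ≥ e^{-tL} p_j 0`, so by the double sum `F2 t ≥ e^{-2tL} F2 0 ≥ e^{-2} F2 0` for `0 ≤ t ≤ 1/L`, hence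
`F1 (1/L) - F1 0 ≥ e^{-2} F2 0 / L` (mean value inequality).  Homogeneity: `Good.hom` for `s_j ∈ R D`. -/
def StEPO : Prop := ∀ C : Cone, Good C → ∀ (D N : ℕ), 0 < D →
  ∀ (s : Fin N → MvPolynomial (Fin C.m) ℂ) (lam : Fin N → ℕ),
  Submodule.span ℂ (Set.range s) = C.R D → ∀ L : ℝ, 0 < L → (∀ j, (lam j : ℝ) ≤ L) →
  ∀ z ∈ C.U, ∀ t : ℝ, 0 ≤ t →
    0 < PP s lam t z ∧ PP s lam 0 z ≤ PP s lam t z ∧
    PP s lam t z ≤ Real.exp (t * L) * PP s lam 0 z ∧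
    0 ≤ F1 s lam t z ∧ F1 s lam t z ≤ L ∧ 0 ≤ F2 s lam t z ∧ F2 s lam t z ≤ L ^ 2 ∧
    F1 s lam 0 z ≤ F1 s lam t z ∧
    F2 s lam 0 z ≤ Real.exp 2 * L * (F1 s lam (1 / L) z - F1 s lam 0 z) ∧
    ∀ c : ℂ, c ≠ 0 → PP s lam t (scl C.w c z) = ‖c‖ ^ (2 * D) * PP s lam t z ∧
      F1 s lam t (scl C.w c z) = F1 s lam t z ∧ F2 s lam t (scl C.w c z) = F2 s lam t z

/-- MODULE ECS (Cauchy-Schwarz for the potentials).  Inputs: `StCAL`, `StEPO`.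
PROOF.  `P > 0` is smooth on `U` and `x ↦ (x / K)^α`, `α = 1/(2D) ∈ (0, 1)`, is smooth on `(0, ∞)`.  Fix `z`
and `ξ`; vectors in `ℂ^N`: `A = (e^{t lam_j / 2} s_j)`, `B = (e^{t lam_j / 2} ∑ i, ∂_i s_j ξ_i)`,
`A' = (lam_j A_j)`, `⟨x, y⟩ = ∑ x_j conj y_j`.  Then `P = ⟨A, A⟩`, `P' = ⟨A', A⟩`, `P'' = ⟨A', A'⟩`,
`∑ ∂_i P ξ_i = ⟨B, A⟩`, `∑ ∂_i P' ξ_i = ⟨B, A'⟩`, `hf (hes P) ξ = ⟨B, B⟩` (`∂̄ s_j = 0`).  Put
`Q(x, y) = ⟨x, y⟩ - (1 - α) ⟨x, A⟩ ⟨A, y⟩ / P`, a positive semidefinite Hermitian form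
(`|⟨x, A⟩|² ≤ ⟨x, x⟩ P`).  By the chain rule, with `c = K^{-α} α P^{α-1} > 0`:
`∑ ∂_i ψ' ξ_i = c Q(B, A')`, `hf (hes ψ) ξ = c Q(B, B)`, `ψ'' = c Q(A', A')` (here `psi1 = K^{-α} α P^{α-1} P'`
and `psi2 = c (P'' - (1-α) P'² / P)`).  So the claim is `|Q(B, A')|² ≤ Q(B, B) Q(A', A')`.
`KD > 0`, and homogeneity of `psi` from `StEPO` (`(‖c‖^{2D})^{1/(2D)} = ‖c‖`). -/
def StECS : Prop := ∀ C : Cone, Good C → ∀ (D N : ℕ), 0 < D →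
  ∀ (s : Fin N → MvPolynomial (Fin C.m) ℂ) (lam : Fin N → ℕ),
  Submodule.span ℂ (Set.range s) = C.R D → ∀ t : ℝ, 0 ≤ t →
  0 < KD C D ∧ ContDiffOn ℝ ∞ (psi C D s lam t) C.U ∧ ContDiffOn ℝ ∞ (psi1 C D s lam t) C.U ∧
  ContinuousOn (psi2 C D s lam t) C.U ∧
  ∀ z ∈ C.U, 0 < psi C D s lam t z ∧ Psd (hes (psi C D s lam t) z) ∧ 0 ≤ psi2 C D s lam t z ∧
    (∀ ξ : Fin C.m → ℂ, ‖∑ j, dz j (cf (psi1 C D s lam t)) z * ξ j‖ ^ 2 ≤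
      psi2 C D s lam t z * hf (hes (psi C D s lam t) z) ξ) ∧
    ∀ c : ℂ, c ≠ 0 → psi C D s lam t (scl C.w c z) = ‖c‖ * psi C D s lam t z ∧
      psi1 C D s lam t (scl C.w c z) = ‖c‖ * psi1 C D s lam t z

/-- MODULE EIN (integral formulas).  Inputs: `StSCA`, `StRAD`, `StDIF`, `StEPO`.
PROOF.  `a = m / (2D)`, `K = KD C D > 0`.  On `U`: `wt = (P / (K u^{2D}))^{-a}`.  For measurable `x ≥ 0` of
degree `0` (redefine all functions off `U`, for instance by `1` resp. `0`): by `StSCA` (`ψ = P`,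
exponent `2D`, `e = 0`) and `StRAD` (exponent `2D`)
`∫⁻_U Φ(P) x dν = (∫_0^∞ Φ(σ) a σ^{a-1} dσ) K^{-a} ∫⁻_{S1} x wt dν`, all finite:
`ν {P < 1} ≤ e ZZ < ∞` (`StDIF`).  `Φ = e^{-σ}, σ e^{-σ}, σ² e^{-σ}`: `∫ Φ a σ^{a-1} = a Γ(a), a Γ(a+1), a Γ(a+2)`,
with quotients `a` and `a (a+1)`.  `x = 1`: `wt` is integrable and `Iw 1 > 0` (`wt > 0`, `ν S1 > 0` as `S1` is
open, nonempty (scale a point of `U`, which is nonempty since `Δ ≠ 0`), `J ≠ 0`).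
`P' = P F1`, `P'' = P (F2 + F1²)`: `UD = a Iw F1 / Iw 1`.  By `StDIF`, `UD = I / ZZ`, `I' = ∫ (P'' - P'²) e^{-P}`,
`ZZ' = - I`, so `UD' = ∫P''e^{-P}/ZZ - ∫P'²e^{-P}/ZZ + UD² = a E[F2 + F1²] - a (a+1) E[F1²] + a² E[F1]²
= U2` with `E[x] = Iw x / Iw 1`.  (`F1`, `F2` are bounded on `U` by `StEPO`.)
The last formula: `psi2 = psi * x` with `x = F2/(2D) + (F1/(2D))²` of degree `0`; `StSCA` (`ψ = psi`,
exponent `1`, `Φ = σ e^{-σ}`) and `StRAD` (exponent `1`): `∫_U psi x e^{-psi} dν =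
(∫_0^∞ σ e^{-σ} m σ^{m-1} dσ) ∫_{S1} x (psi/u)^{-m} dν`, and the first factor is `m * m!`. -/
def StEIN : Prop := ∀ C : Cone, Good C → ∀ (D N : ℕ), 0 < D →
  ∀ (s : Fin N → MvPolynomial (Fin C.m) ℂ) (lam : Fin N → ℕ),
  Submodule.span ℂ (Set.range s) = C.R D → ∀ t : ℝ, 0 ≤ t →
  IntegrableOn (wt C D s lam t) (S1 C) C.nu ∧ (∀ z ∈ C.U, 0 < wt C D s lam t z) ∧
  0 < Iw C D s lam t (fun _ => 1) ∧
  UD C s lam t = (C.m / (2 * D) : ℝ) * (Iw C D s lam t (F1 s lam t) / Iw C D s lam t (fun _ => 1)) ∧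
  HasDerivWithinAt (UD C s lam) (U2 C D s lam t) (Set.Ici 0) t ∧
  IntegrableOn (fun z => psi2 C D s lam t z * Real.exp (-psi C D s lam t z) * ‖ev C.J z‖ ^ 2) C.U ∧
  ∫ z in C.U, psi2 C D s lam t z * Real.exp (-psi C D s lam t z) * ‖ev C.J z‖ ^ 2 =
    C.m * C.m.factorial *
      Iw C D s lam t (fun z => F2 s lam t z / (2 * D) + (F1 s lam t z / (2 * D)) ^ 2)

/-- MODULE ERD (radial integrals).  Inputs: `StSCA`, `StMOM`, `StVOL`.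
PROOF.  `PP s lam 0 = ∑ ‖s_j‖² = KD * berg * u^{2D}` on `U`, `berg` of degree `0`.  `StSCA` with `ψ = u`, exponent
`1`, `e = 0`, `g = x berg` (`x ≥ 0` first, then the difference of two bounded functions; redefine off `U`),
`Φ = σ^{2D} e^{-σ}` resp. `σ^{2D} (σ - 2D)² e^{-σ}`:
`∫ σ^{2D} e^{-σ} m σ^{m-1} dσ = m (2D+m-1)!`, and with the factor `(σ - 2D)²` it is
`m (2D+m-1)! ((2D+m) + m²)` (`∫ σ^{p} e^{-σ} = p!` for `p = 2D+m-1, 2D+m, 2D+m+1`).  `x = 1`: the left side is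
`∑ nrm (s_j J) = N`, so `berg` is integrable on `S1`. -/
def StERD : Prop := ∀ C : Cone, Good C → ∀ (D N : ℕ), 0 < D →
  ∀ (s : Fin N → MvPolynomial (Fin C.m) ℂ) (lam : Fin N → ℕ), ONB C D s →
  IntegrableOn (C.berg D s) (S1 C) C.nu ∧
  (N : ℝ) = KD C D * C.m * (2 * D + C.m - 1).factorial * I1 C (C.berg D s) ∧
  ∀ (x : (Fin C.m → ℂ) → ℝ) (B : ℝ), Measurable x → (∀ z ∈ C.U, |x z| ≤ B) →
  (∀ z ∈ C.U, ∀ c : ℂ, c ≠ 0 → x (scl C.w c z) = x z) →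
  IntegrableOn (fun z => PP s lam 0 z * x z * (1 + C.u z ^ 2) * Real.exp (-C.u z) *
    ‖ev C.J z‖ ^ 2) C.U ∧
  ∫ z in C.U, PP s lam 0 z * x z * Real.exp (-C.u z) * ‖ev C.J z‖ ^ 2 =
    KD C D * C.m * (2 * D + C.m - 1).factorial * I1 C (fun z => x z * C.berg D s z) ∧
  ∫ z in C.U, PP s lam 0 z * x z * (C.u z - 2 * D) ^ 2 * Real.exp (-C.u z) * ‖ev C.J z‖ ^ 2 =
    (2 * D + C.m + C.m ^ 2) *
      (KD C D * C.m * (2 * D + C.m - 1).factorial * I1 C (fun z => x z * C.berg D s z))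

/-- MODULE EHS (Hilbert-Schmidt norm).  Inputs: `StMOM`, `StIPP`, `StERD`.
PROOF.  With `h_j = w_j`: `ipp (w_j) (w_j) = ∫ (g-c) s_j conj(w_j) |J|² e^{-u}`, so by Cauchy-Schwarz
`re ipp (w_j) (w_j) ≤ ∫ (g-c)² |s_j|² |J|² e^{-u}` (finite: `|g| ≤ B u`, `StERD`).  Hence
`∑ re ipp (lam_j s_j - w_j) (same) = ∑ (lam_j² - 2 lam_j re ipp (w_j) (s_j) + re ipp (w_j) (w_j))
≤ ∑ ∫ (lam_j² - 2 lam_j (g - c) + (g - c)²) |s_j|² |J|² e^{-u}` (`ipp s_j s_j = 1`, `re ipp (w_j) (s_j) =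
∫ (g-c) |s_j|² |J|² e^{-u}`), and `∑ (lam_j² - 2 lam_j (g-c) + (g-c)²) |s_j|² = P'' - 2 (g-c) P' + (g-c)² P
= P (F2 + (F1 - (g-c))²)` at `t = 0`. -/
def StEHS : Prop := ∀ C : Cone, Good C → ∀ (D N : ℕ), 0 < D →
  ∀ (s : Fin N → MvPolynomial (Fin C.m) ℂ) (lam : Fin N → ℕ), ONB C D s →
  ∀ (g : (Fin C.m → ℂ) → ℝ) (B c : ℝ), Measurable g → (∀ z ∈ C.U, |g z| ≤ B * C.u z) →
  ∀ w : Fin N → MvPolynomial (Fin C.m) ℂ, (∀ j, w j ∈ C.R D) →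
  (∀ j, ∀ h ∈ C.R D, ipp C (w j) h = ∫ z in C.U, ((g z - c : ℝ) : ℂ) * ev (s j) z *
    star (ev h z) * ((‖ev C.J z‖ ^ 2 * Real.exp (-C.u z) : ℝ) : ℂ)) →
  ∑ j, (ipp C ((lam j : ℂ) • s j - w j) ((lam j : ℂ) • s j - w j)).re ≤
    ∫ z in C.U, PP s lam 0 z * (F2 s lam 0 z + (F1 s lam 0 z - (g z - c)) ^ 2) *
      Real.exp (-C.u z) * ‖ev C.J z‖ ^ 2

/-- MODULE EIB (independence of the basis).  Inputs: `StMOM`, `StIPP`, `StNUL`.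
PROOF.  Both families are orthonormal bases of `V = R (n r k)`.  `(lam j) s_j = ∑_{l ≥ 1} Pr_l s_j`
where `Pr_l` is the orthogonal projection of `V` to `F k l` (`F k l` is spanned by the `s_j` with
`lam j ≥ l`, so `Pr_l s_j = s_j` if `l ≤ lam j` and `0` otherwise).  So `lam j • s_j = T s_j` for the linear map
`T = ∑_{l ≥ 1} Pr_l` (finite sum), which depends only on `F k`, and likewise `lam' j • s'_j = T s'_j`.  Both
sums are `∑ ‖(T - W) s_j‖² = tr (T - W)*(T - W)`, independent of the orthonormal basis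
(`s'_i = ∑ u_ij s_j` with a unitary matrix `u`). -/
def StEIB : Prop := ∀ C : Cone, Good C → ∀ (r k N N' : ℕ)
  (F : ℕ → ℕ → Submodule ℂ (MvPolynomial (Fin C.m) ℂ))
  (s : Fin N → MvPolynomial (Fin C.m) ℂ) (lam : Fin N → ℕ)
  (s' : Fin N' → MvPolynomial (Fin C.m) ℂ) (lam' : Fin N' → ℕ),
  F k 0 = C.R (C.n * r * k) → Adp C r F k s lam → Adp C r F k s' lam' →
  (∀ i j, ipp C (s i) (s j) = if i = j then 1 else 0) →
  (∀ i j, ipp C (s' i) (s' j) = if i = j then 1 else 0) →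
  ∀ W : C.R (C.n * r * k) →ₗ[ℂ] C.R (C.n * r * k),
  ∀ (h : ∀ j, s j ∈ C.R (C.n * r * k)) (h' : ∀ j, s' j ∈ C.R (C.n * r * k)),
  N = N' ∧ ∑ j, (ipp C ((lam j : ℂ) • s j - (W ⟨s j, h j⟩ : MvPolynomial (Fin C.m) ℂ))
      ((lam j : ℂ) • s j - (W ⟨s j, h j⟩ : MvPolynomial (Fin C.m) ℂ))).re =
    ∑ j, (ipp C ((lam' j : ℂ) • s' j - (W ⟨s' j, h' j⟩ : MvPolynomial (Fin C.m) ℂ))
      ((lam' j : ℂ) • s' j - (W ⟨s' j, h' j⟩ : MvPolynomial (Fin C.m) ℂ))).re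

/-! ### Bergman functions and averages -/

/-- MODULE EUP (upper bound of Bergman functions on compact sets).  Inputs: `StSCA`, `StSUP`,
`StMOM`, `StVOL`.
PROOF.  Choose `ρ > 0` such that `K' = {z : dist(z, K) ≤ ρ} ⊆ U`, compact, and
`|log u y - log u z| ≤ δ / 8` for `z ∈ K`, `y ∈ ball z ρ` (uniform continuity); `j₀ = min_{K'} |J|² > 0`,
`R > max_{K'} u`.  Let `z ∈ K` and `f = ∑ c_j s_j`, `∑ |c_j|² = 1`, so `nrm (f J) = 1`.  `StSUP`: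
`(π ρ²)^m |f z|² ≤ ∫_{ball z ρ} |f|² ≤ j₀⁻¹ (u(z) e^{δ/8})^{2D} ∫_{z ∈ U, u < R} |f|² u^{-2D} dν`.  By `StSCA`
(`ψ = u`, exponent `1`, `e = 0`, `g = |f|² u^{-2D}`) the last integral is `R^m ∫_{S1} g dν` and
`1 = nrm (f J) = m (2D+m-1)! ∫_{S1} g dν`.  With `c_j = conj (s_j z) / (∑ ‖s_j z‖²)^{1/2}`:
`∑ ‖s_j z‖² = |f z|²`.  So `berg D s z ≤ C_K e^{δD/4} (π/2)^m / (m D^{m-1}) ≤ e^{δD}` for large `D`. -/
def StEUP : Prop := ∀ C : Cone, Good C → ∀ K ⊆ C.U, IsCompact K → ∀ δ : ℝ, 0 < δ →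
  ∀ᶠ D : ℕ in atTop, ∀ (N : ℕ) (s : Fin N → MvPolynomial (Fin C.m) ℂ), ONB C D s →
    ∀ z ∈ K, C.berg D s z ≤ Real.exp (δ * D)

/-- MODULE EHM (conical null sets).
PROOF.  If `z ∈ E` then `scl w (1/q) z ∈ E ∩ S1` for a natural number `q > u z` (`uhom`), so `E` is contained in
the union over `q ≥ 1` of the images of `E ∩ S1` under the linear isomorphisms `scl w q`, which are null
sets (`MeasureTheory.Measure.addHaar_image_linearMap`; or they are Lipschitz maps). -/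
def StEHM : Prop := ∀ C : Cone, Good C → ∀ E ⊆ C.U,
  (∀ z ∈ E, ∀ c : ℂ, c ≠ 0 → scl C.w c z ∈ E) → volume (E ∩ S1 C) = 0 → volume E = 0

/-- MODULE ECV (almost everywhere convergence).  Inputs: `StBER`, `StEHM`.
PROOF.  `StBER`: choose `σ` strictly increasing with `∫⁻_{S1} |berg_{σ i} - 1| dν ≤ 2^{-i}`.  The sum over
`i` is integrable on `S1`, so `berg_{σ i} → 1` `ν`-almost everywhere on `S1`, hence almost everywhere for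
Lebesgue measure (`J ≠ 0` on `U`).  The set `E` of `z ∈ U` without convergence is conical (`berg` has degree
`0` for `c ≠ 0`: `Good.hom`, `uhom`), so `StEHM`. -/
def StECV : Prop := ∀ C : Cone, Good C → ∀ (D N : ℕ → ℕ)
  (s : ∀ i, Fin (N i) → MvPolynomial (Fin C.m) ℂ), Tendsto D atTop atTop →
  (∀ i, ONB C (D i) (s i)) → ∃ σ : ℕ → ℕ, StrictMono σ ∧ ∀ᵐ z ∂volume.restrict C.U,
    Tendsto (fun i => C.berg (D (σ i)) (s (σ i)) z) atTop (𝓝 1)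

/-- MODULE EWT (potentials and weights converge).  Inputs: `StBLB`, `StEUP`, `StEPO`, `StVOL`,
`StEIN`.
PROOF.  `D = n r k`.  On `U`: `psi / u = (berg * q)^{1/(2D)}`, `q = PP t / PP 0 ∈ [1, e^{t Λ k}]` (`StEPO`), so
`q^{1/(2D)} ∈ [1, e^{t Λ / (2 n r)}]` tends to `1` as `t i → 0`.  `StBLB`: `berg ≥ c^D`, so `psi / u ≥ c^{1/2}`
(we may take `c ≤ 1`) and `wt ≤ c^{-m/2}`.  Where `berg → 1`: `berg^{1/(2D)} → 1`, so `psi → u` and `wt → 1`.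
`∫_{S1} |wt - 1| dν → 0`: dominated convergence, `ν S1 < ∞` (`StVOL`).  Upper bound on `K`: `StEUP` with
small `δ'`: `psi ≤ u e^{δ'/2} e^{t Λ/(2nr)} ≤ u + δ` as `u` is bounded on `K`. -/
def StEWT : Prop := ∀ (C : Cone) (r Λ : ℕ) (k N : ℕ → ℕ)
  (s : ∀ i, Fin (N i) → MvPolynomial (Fin C.m) ℂ) (lam : ∀ i, Fin (N i) → ℕ),
  Good C → SQ C r Λ k N s lam → ∀ t : ℕ → ℝ, (∀ i, 0 ≤ t i) → Tendsto t atTop (𝓝 0) →
  (∃ B : ℝ, 0 < B ∧ ∀ i, ∀ z ∈ C.U, wt C (C.n * r * k i) (s i) (lam i) (t i) z ≤ B ∧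
    C.u z ≤ B * psi C (C.n * r * k i) (s i) (lam i) (t i) z) ∧
  (∀ᵐ z ∂volume.restrict C.U,
    Tendsto (fun i => wt C (C.n * r * k i) (s i) (lam i) (t i) z) atTop (𝓝 1) ∧
    Tendsto (fun i => psi C (C.n * r * k i) (s i) (lam i) (t i) z) atTop (𝓝 (C.u z))) ∧
  Tendsto (fun i => I1 C (fun z => |wt C (C.n * r * k i) (s i) (lam i) (t i) z - 1|)) atTop (𝓝 0) ∧
  (∀ K ⊆ C.U, IsCompact K → ∀ δ : ℝ, 0 < δ → ∀ᶠ i in atTop, ∀ z ∈ K,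
    psi C (C.n * r * k i) (s i) (lam i) (t i) z ≤ C.u z + δ)

/-- MODULE EVA (averages).  Inputs: `StEWT`, `StEIN`, `StVOL`.
PROOF.  `Iw x_i - I1 x_i = ∫_{S1} x_i (wt_i - 1) dν → 0` (`|x_i| ≤ B`, `StEWT`), `Iw 1 → I1 1 = ν S1 ∈ (0, ∞)`, and
`|I1 x_i| ≤ B ν S1`. -/
def StEVA : Prop := ∀ (C : Cone) (r Λ : ℕ) (k N : ℕ → ℕ)
  (s : ∀ i, Fin (N i) → MvPolynomial (Fin C.m) ℂ) (lam : ∀ i, Fin (N i) → ℕ),
  Good C → SQ C r Λ k N s lam → ∀ t : ℕ → ℝ, (∀ i, 0 ≤ t i) → Tendsto t atTop (𝓝 0) →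
  0 < I1 C (fun _ => 1) ∧
  Tendsto (fun i => Iw C (C.n * r * k i) (s i) (lam i) (t i) (fun _ => 1)) atTop
    (𝓝 (I1 C (fun _ => 1))) ∧
  ∀ (x : ℕ → (Fin C.m → ℂ) → ℝ) (B : ℝ),
  (∀ i, AEStronglyMeasurable (x i) (C.nu.restrict (S1 C))) → (∀ i, ∀ z ∈ C.U, |x i z| ≤ B) →
  Tendsto (fun i => Iw C (C.n * r * k i) (s i) (lam i) (t i) (x i) /
      Iw C (C.n * r * k i) (s i) (lam i) (t i) (fun _ => 1) -
    I1 C (x i) / I1 C (fun _ => 1)) atTop (𝓝 0)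

/-- MODULE ETM (the mean of the jumps does not move in short time).  Inputs: `StEIN`, `StEVA`,
`StEPO`.
PROOF.  `a_i = m / (2 n r k_i) = 1 / (r k_i)` (`hm`).  Let `ε > 0`.  Eventually `UD (t i) ≤ UD 0 + ε`, that is by
`StEIN` (for `t i` and for `0`) `Iw_{t i} (F1_{t i} / k_i) / Iw_{t i} 1 ≤ Iw_0 (F1_0 / k_i) / Iw_0 1 + r ε`.  The
functions `F1 / k_i` are bounded by `Λ` (`StEPO`, `L = Λ k_i`) and continuous on `U`; `StEVA` for the times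
`t i` and for the times `0` gives `I1 ((F1_{t i} - F1_0) / k_i) / I1 1 ≤ r ε + o(1)`.  The integrand is
nonnegative (`StEPO`). -/
def StETM : Prop := ∀ (C : Cone) (r Λ : ℕ) (k N : ℕ → ℕ)
  (s : ∀ i, Fin (N i) → MvPolynomial (Fin C.m) ℂ) (lam : ∀ i, Fin (N i) → ℕ),
  Good C → SQ C r Λ k N s lam → ∀ t : ℕ → ℝ, (∀ i, 0 ≤ t i) → Tendsto t atTop (𝓝 0) →
  Tendsto (fun i => I1 C (fun z => (F1 (s i) (lam i) (t i) z - F1 (s i) (lam i) 0 z) / k i))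
    atTop (𝓝 0)

/-- MODULE EGT (good times).  Input: `StEIN`.
PROOF.  For `n ≥ 1` let `I_n` (increasing in `n`) be such that `UD t ≤ UD 0 + 1/n²` for all `t ≥ 0` and `i ≥ I_n`
(`SQ.slope`).  For `I_n ≤ i < I_(n+1)` apply the mean value theorem on `[0, 1/n]` (`exists_hasDerivAt_eq_slope`,
the derivative of `UD` is `U2`, `StEIN`): there is `t ∈ (0, 1/n)` with
`U2 t = n (UD (1/n) - UD 0) ≤ 1/n`.  For `i < I_1` take `t i = 0`. -/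
def StEGT : Prop := ∀ (C : Cone) (r Λ : ℕ) (k N : ℕ → ℕ)
  (s : ∀ i, Fin (N i) → MvPolynomial (Fin C.m) ℂ) (lam : ∀ i, Fin (N i) → ℕ),
  Good C → SQ C r Λ k N s lam → ∃ t : ℕ → ℝ, (∀ i, 0 ≤ t i) ∧ Tendsto t atTop (𝓝 0) ∧
    ∀ ε : ℝ, 0 < ε → ∀ᶠ i in atTop, U2 C (C.n * r * k i) (s i) (lam i) (t i) ≤ ε

/-! ### Compactness -/

/-- MODULE ERE (Rellich).  Inputs: `StWKC`, `StMEX`, `StMO1`, `StMO2`, `StCAL`.
PROOF.  The functions `x i` are bounded in `L²(K)` for every compact `K ⊆ U`; `StWKC` (`p = 1`): subsequence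
converging weakly in `L²_loc(U)` to `w`.  Let `K ⊆ U` be compact, `K' = {dist(z, K) ≤ 2 ε₀} ⊆ U` compact, and
`φ_l` mollifiers (`StMEX`) with `1/(l+1) < ε₀`.  For `z ∈ K` put `x_i^l z = ∫ φ_l (z - y) x_i y dy`.
(a) `∫_K |x_i - x_i^l| ≤ sup_{‖y‖ ≤ 1/(l+1)} ∫_K |x_i z - x_i (z - y)| dz ≤ (C / (l+1)) ∑ j ∫_{K'} ‖dz j (cf (x i))‖
≤ C B / (l+1)` (`x_i z - x_i (z-y) = ∫_0^1 D x_i (z - τ y) y dτ`, Fubini; `|D x y| ≤ 2 ‖y‖ ∑ ‖dz j x‖` for real `x`).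
(b) for fixed `l` and each `z ∈ K`, `x_i^l z → w^l z = ∫ φ_l (z-y) w y dy` as `i → ∞` (weak convergence),
boundedly, so in `L¹(K)`.  (c) `w^l → w` in `L¹(K)` as `l → ∞` (`StMO2` for `1_{K'} w`).  Hence `x_i → w` in
`L¹(K)`.  Take an exhaustion of `U` by compact sets and a diagonal subsequence with
`∫_{K_n} |x_{σ i} - w| ≤ 2^{-i}` for `i ≥ n`: it converges almost everywhere on `U`; `g = re w`. -/
def StERE : Prop := ∀ (m : ℕ) (U : Set (Fin m → ℂ)), IsOpen U → ∀ x : ℕ → (Fin m → ℂ) → ℝ,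
  (∀ i, ContDiffOn ℝ ∞ (x i) U) →
  (∀ K ⊆ U, IsCompact K → ∃ B : ℝ, ∀ᶠ i in atTop, (∀ z ∈ K, |x i z| ≤ B) ∧
    ∀ j, ∫ z in K, ‖dz j (cf (x i)) z‖ ≤ B) →
  ∃ (σ : ℕ → ℕ) (g : (Fin m → ℂ) → ℝ), StrictMono σ ∧
    ∀ᵐ z ∂volume.restrict U, Tendsto (fun i => x (σ i) z) atTop (𝓝 (g z))

/-- MODULE EBD (bounds).  Inputs: `StECS`, `StEIN`, `StEWT`, `StEPO`, `StEVA`, `StIBP`, `StCAL`.
PROOF.  `a = m/(2D) = 1/(r k)`, `F1 ≤ Λ k`.  By definition of `U2`: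
`a Iw F2 / Iw 1 ≤ U2 + a² Iw F1² / Iw 1 ≤ 1 + (Λ/r)²` eventually, so with `StEIN` the integral
`A_i = m m! Iw (F2/(2D) + (F1/(2D))²) = m! (a Iw F2) + ...` is bounded (`Iw 1` is bounded).
On compact `K ⊆ U`: `psi` is bounded (`StEWT`), `|psi1| ≤ psi Λ / (2 n r)`.  `StECS` with `ξ = e_j`:
`‖dz j (cf psi1)‖² ≤ psi2 * re (hes psi j j)`, so by Cauchy-Schwarz
`∫_K ‖dz j (cf psi1)‖ ≤ (∫_K psi2)^{1/2} (∫_K re (hes psi j j))^{1/2}`;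
`∫_K psi2 ≤ sup_K (e^{psi} / ‖J‖²) A_i`; and with a test function `χ ≥ 0` of `U`, `χ = 1` on `K`, two
integrations by parts (`StIBP`, `psi` multiplied by a cutoff equal to one near `tsupport χ`) give
`∫_K re (hes psi j j) ≤ ∫ χ hes psi j j = ∫ psi * hes χ j j ≤ C sup_{tsupport χ} psi`. -/
def StEBD : Prop := ∀ (C : Cone) (r Λ : ℕ) (k N : ℕ → ℕ)
  (s : ∀ i, Fin (N i) → MvPolynomial (Fin C.m) ℂ) (lam : ∀ i, Fin (N i) → ℕ),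
  Good C → SQ C r Λ k N s lam → ∀ t : ℕ → ℝ, (∀ i, 0 ≤ t i) → Tendsto t atTop (𝓝 0) →
  (∀ᶠ i in atTop, U2 C (C.n * r * k i) (s i) (lam i) (t i) ≤ 1) →
  ∀ K ⊆ C.U, IsCompact K → ∃ B : ℝ, ∀ᶠ i in atTop,
    (∀ z ∈ K, |psi1 C (C.n * r * k i) (s i) (lam i) (t i) z| ≤ B ∧
      |psi C (C.n * r * k i) (s i) (lam i) (t i) z| ≤ B) ∧
    ∀ j, ∫ z in K, ‖dz j (cf (psi1 C (C.n * r * k i) (s i) (lam i) (t i))) z‖ ≤ B

/-- MODULE ESG (homogeneous limit function).  Inputs: `StEWT`, `StECS`, `StEPO`.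
PROOF.  `h z = limsup_i psi1_i z` (in `EReal` or of real sequences; use
`h z = max 0 (min (B u z) (limsup)))` with `limsup` taken in `EReal` and converted), `g = h` on `U`, `0` off `U`,
`B = Λ/(2 n r)`.  `0 ≤ psi1 = psi F1/(2D) ≤ B psi` and `psi → u` almost everywhere, so `g = g₀` almost
everywhere.  `psi1` and `u` are homogeneous of degree one (`StECS`), so is `g`; `psi1` is continuous on the
open set `U`, so `g` is Borel measurable. -/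
def StESG : Prop := ∀ (C : Cone) (r Λ : ℕ) (k N : ℕ → ℕ)
  (s : ∀ i, Fin (N i) → MvPolynomial (Fin C.m) ℂ) (lam : ∀ i, Fin (N i) → ℕ),
  Good C → SQ C r Λ k N s lam → ∀ t : ℕ → ℝ, (∀ i, 0 ≤ t i) → Tendsto t atTop (𝓝 0) →
  ∀ g₀ : (Fin C.m → ℂ) → ℝ, (∀ᵐ z ∂volume.restrict C.U,
    Tendsto (fun i => psi1 C (C.n * r * k i) (s i) (lam i) (t i) z) atTop (𝓝 (g₀ z))) →
  ∃ (g : (Fin C.m → ℂ) → ℝ) (B : ℝ), Measurable g ∧ (∀ z ∈ C.U, 0 ≤ g z ∧ g z ≤ B * C.u z) ∧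
    (∀ z ∈ C.U, ∀ c : ℂ, c ≠ 0 → g (scl C.w c z) = ‖c‖ * g z) ∧
    ∀ᵐ z ∂volume.restrict C.U,
      Tendsto (fun i => psi1 C (C.n * r * k i) (s i) (lam i) (t i) z) atTop (𝓝 (g z))

/-- the minimum over real `c` of `∫ (g - c)² e^{-u} dν`, `g` homogeneous of degree one -/
noncomputable def Vm (C : Cone) (g : (Fin C.m → ℂ) → ℝ) : ℝ :=
  C.m * C.m.factorial * ((C.m + 1) * I1 C (fun z => (g z / C.u z) ^ 2) -
    C.m * (I1 C (fun z => g z / C.u z) ^ 2 / I1 C (fun _ => 1)))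

/-- MODULE EVM (the limit of the energies).  Inputs: `StEIN`, `StEVA`, `StEPO`, `StSCA`, `StVOL`,
`StEWT`.
PROOF.  Put `v = g / u` (degree `0`, bounded), `v_i = F1/(2D) = psi1 / psi → v` almost everywhere on `U`
(`StEWT`: `psi → u > 0`), `0 ≤ v_i ≤ Λ/(2nr)`.  `a = m/(2D)`.  By definition of `U2`, multiplied by `Iw 1 / m`:
`Iw (F2/(2D)) = (Iw 1 / m) U2 + m (Iw v_i² - (Iw v_i)² / Iw 1)`.  So the integral in `StEIN` is
`m m! ((Iw 1 / m) U2 + m (Iw v_i² - (Iw v_i)²/Iw 1) + Iw v_i²)`; by `StEVA` and dominated convergence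
`Iw v_i² → I1 v²`, `Iw v_i → I1 v`, `Iw 1 → I1 1`; and `U2 ≤ ε` eventually.
Second claim: `StSCA` (`ψ = u`, exponent `1`, `e = 0`; `g = u v`, redefine off `U`): `∫_U g² e^{-u} dν = m (m+1)! I1 v²`,
`∫_U g e^{-u} dν = m m! I1 v`, `∫_U e^{-u} dν = m! I1 1`, so
`∫ (g - c)² e^{-u} dν = m (m+1)! I1 v² - 2 c m m! I1 v + c² m! I1 1`, minimal for `c = m I1 v / I1 1` with value
`Vm`. -/
def StEVM : Prop := ∀ (C : Cone) (r Λ : ℕ) (k N : ℕ → ℕ)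
  (s : ∀ i, Fin (N i) → MvPolynomial (Fin C.m) ℂ) (lam : ∀ i, Fin (N i) → ℕ),
  Good C → SQ C r Λ k N s lam → ∀ t : ℕ → ℝ, (∀ i, 0 ≤ t i) → Tendsto t atTop (𝓝 0) →
  (∀ ε : ℝ, 0 < ε → ∀ᶠ i in atTop, U2 C (C.n * r * k i) (s i) (lam i) (t i) ≤ ε) →
  ∀ (g : (Fin C.m → ℂ) → ℝ) (B : ℝ), Measurable g → (∀ z ∈ C.U, 0 ≤ g z ∧ g z ≤ B * C.u z) →
  (∀ z ∈ C.U, ∀ c : ℂ, c ≠ 0 → g (scl C.w c z) = ‖c‖ * g z) →
  (∀ᵐ z ∂volume.restrict C.U,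
    Tendsto (fun i => psi1 C (C.n * r * k i) (s i) (lam i) (t i) z) atTop (𝓝 (g z))) →
  (∀ ε : ℝ, 0 < ε → ∀ᶠ i in atTop,
    ∫ z in C.U, psi2 C (C.n * r * k i) (s i) (lam i) (t i) z *
      Real.exp (-psi C (C.n * r * k i) (s i) (lam i) (t i) z) * ‖ev C.J z‖ ^ 2 ≤ Vm C g + ε) ∧
  ∀ c : ℝ, IntegrableOn (fun z => (g z - c) ^ 2 * Real.exp (-C.u z) * ‖ev C.J z‖ ^ 2) C.U ∧
    Vm C g ≤ ∫ z in C.U, (g z - c) ^ 2 * Real.exp (-C.u z) * ‖ev C.J z‖ ^ 2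

/-- MODULE ELI (the limit inequality).  Inputs: `StIBP`, `StCAL`.
PROOF.  `K` = union of the `tsupport (η j)`, compact in `U`.  Integration by parts (`x i` multiplied by a
cutoff equal to one near `K`): `∫_U x_i ∑ dz j (η j) = - ∫_U ∑ dz j (cf x_i) η_j`, whose absolute value is
at most `∫_K (y_i hf (hes ψ_i) η)^{1/2} ≤ (∫_K y_i e^{-ψ_i} ‖J‖²)^{1/2} (∫_K hf (hes ψ_i) η e^{ψ_i} ‖J‖^{-2})^{1/2}`.
Let `δ > 0`.  Eventually `ψ_i ≤ u + δ` on `K` and the first integral is `≤ A + δ`.  The second is at most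
`e^δ ∫_K hf (hes ψ_i) η e^{u} ‖J‖^{-2} = e^δ re ∑∑ ∫ dz j (db k (cf ψ_i)) θ_jk`, `θ_jk = η_j star(η_k) e^u ‖J‖^{-2}` (extended
by `0`: a test function of `U`; `‖J‖²` is smooth and nonzero there), `= e^δ re ∑∑ ∫ ψ_i db k (dz j θ_jk)` (two
integrations by parts), which tends to the same expression with `u` (dominated convergence on `K`, `ψ_i → u`
almost everywhere, bounded), that is to `e^δ ∫ hf (hes u) η e^u ‖J‖^{-2}`.  The left side tends to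
`|∫ g ∑ dz j (η j)|` (dominated convergence).  Let `δ → 0`. -/
def StELI : Prop := ∀ (m : ℕ) (U : Set (Fin m → ℂ)), IsOpen U → ∀ (u : (Fin m → ℂ) → ℝ)
  (J : (Fin m → ℂ) → ℂ), ContDiffOn ℝ ∞ u U → DifferentiableOn ℂ J U → (∀ z ∈ U, J z ≠ 0) →
  ∀ (ψ x y : ℕ → (Fin m → ℂ) → ℝ) (g : (Fin m → ℂ) → ℝ) (A : ℝ),
  (∀ i, ContDiffOn ℝ ∞ (ψ i) U) → (∀ i, ContDiffOn ℝ ∞ (x i) U) → (∀ i, ContinuousOn (y i) U) →
  (∀ i, ∀ z ∈ U, Psd (hes (ψ i) z) ∧ 0 ≤ y i z ∧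
    ∀ ξ : Fin m → ℂ, ‖∑ j, dz j (cf (x i)) z * ξ j‖ ^ 2 ≤ y i z * hf (hes (ψ i) z) ξ) →
  (∀ i, IntegrableOn (fun z => y i z * Real.exp (-ψ i z) * ‖J z‖ ^ 2) U) →
  (∀ ε : ℝ, 0 < ε → ∀ᶠ i in atTop,
    ∫ z in U, y i z * Real.exp (-ψ i z) * ‖J z‖ ^ 2 ≤ A + ε) →
  (∀ᵐ z ∂volume.restrict U, Tendsto (fun i => ψ i z) atTop (𝓝 (u z))) →
  (∀ᵐ z ∂volume.restrict U, Tendsto (fun i => x i z) atTop (𝓝 (g z))) →
  (∀ K ⊆ U, IsCompact K → ∃ B : ℝ, ∀ᶠ i in atTop, ∀ z ∈ K, |x i z| ≤ B ∧ |ψ i z| ≤ B) →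
  (∀ K ⊆ U, IsCompact K → ∀ δ : ℝ, 0 < δ → ∀ᶠ i in atTop, ∀ z ∈ K, ψ i z ≤ u z + δ) →
  ∀ η : Fin m → (Fin m → ℂ) → ℂ, (∀ j, Tst U (η j)) →
    ‖∫ z in U, (g z : ℂ) * ∑ j, dz j (η j) z‖ ^ 2 ≤
      A * ∫ z in U, hf (hes u z) (fun j => η j z) * (Real.exp (u z) / ‖J z‖ ^ 2)

/-- MODULE EPG (pairing with the limit function).  Inputs: `StCUT`, `StMEX`, `StMO1`, `StMO2`,
`StMOM`, `StCAL`, `StIBP`.
PROOF.  `J` = `ev C.J`.  Let `χ` be a real test function of `U`.  `η_j = χ β_j star(J) e^{-u}` is in `L²` with compact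
support in `U`.  For a test function `φ` on `ℂ^m`, `WT` with the test function `χ J φ` of `U`
(`db j (χ J φ) = J (φ db j χ + χ db j φ)`) gives weakly `∑ dz j η_j = b` with
`b = ∑ β_j star(J) e^{-u} dz j χ - χ a star(J) e^{-u} ∈ L²` (`star (db j χ) = dz j χ` for real `χ`).
Mollify: `η^l_j = cv (φ l) η_j` is smooth with compact support in `U` for `l` large, and
`∑ dz j (η^l_j) = cv (φ l) b` (`StMO1` and the weak equation for `x ↦ φ l (z - x)`).  Hypothesis for `η^l`,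
`l → ∞` (`StMO2`; `g`, `hes u`, `e^u / ‖J‖²` are bounded on a compact neighbourhood of the support in `U`):
`|∫ g b|² ≤ A ∫ χ² hf (hes u) β e^{-u} ≤ A ∫ hf (hes u) β e^{-u}` for `0 ≤ χ ≤ 1` (the factor `‖J‖²` of
`hf (hes u) η` cancels; `A ≥ 0` or both sides...: the right side is nonnegative by hypothesis, if `A < 0`
then all `∫ χ² hf` vanish and the claim is clear).  Take `χ = χ_i` (`StCUT`):
`∫ g χ_i a star(J) e^{-u} → ∫ g a star(J) e^{-u} = inn a (g J)` (dominated: `a, g J ∈ L²`, `StMOM`), and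
`|∫ g star(J) ∑ β_j dz j χ_i e^{-u}| ≤ (∫ B² u² ‖J‖² κ_i e^{-u})^{1/2} (∫ hf (hes u) β e^{-u})^{1/2} → 0`
(`StCUT`; `|∑ β_j dz j χ_i| = |∑ db j χ_i star(β_j)|`, `u ≤ b sz`). -/
def StEPG : Prop := ∀ C : Cone, Good C → ∀ (g : (Fin C.m → ℂ) → ℝ) (B A : ℝ), Measurable g →
  (∀ z ∈ C.U, |g z| ≤ B * C.u z) → 0 ≤ A →
  (∀ η : Fin C.m → (Fin C.m → ℂ) → ℂ, (∀ j, Tst C.U (η j)) →
    ‖∫ z in C.U, (g z : ℂ) * ∑ j, dz j (η j) z‖ ^ 2 ≤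
      A * ∫ z in C.U, hf (hes C.u z) (fun j => η j z) * (Real.exp (C.u z) / ‖ev C.J z‖ ^ 2)) →
  ∀ (β : Fin C.m → (Fin C.m → ℂ) → ℂ) (a : (Fin C.m → ℂ) → ℂ), (∀ j, L2loc C.U (β j)) →
  L2 C.U C.u a → WT C.U C.u β a →
  IntegrableOn (fun z => hf (hes C.u z) (fun j => β j z) * Real.exp (-C.u z)) C.U →
  ‖inn C.U C.u a (fun z => (g z : ℂ) * ev C.J z)‖ ^ 2 ≤
    A * ∫ z in C.U, hf (hes C.u z) (fun j => β j z) * Real.exp (-C.u z)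

/-- MODULE ERI (rigidity).  Inputs: `StRHU`, `StEPG`, `StWEY`, `StMOM`, `StIPP`, `StNUL`.
PROOF.  `StRHU` with `k = 0` and `G = g J` (`g (scl c z) = g z` for `‖c‖ = 1`): `s ∈ R 0` is a constant `c₀`
(`Good.cst`), `a = (g - c₀) J`.  Comparing with the constant `re c₀` (`|g - c₀|² = (g - re c₀)² + (im c₀)²`) gives
`im c₀ = 0`; put `c = re c₀`.  Comparing with `c + τ`, `τ` real: `inn a J = 0` (derivative at `τ = 0`; it is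
real), so `inn a (g J) = inn a a = nrm a = ∫ (g - c)² e^{-u} ‖J‖²`.  Let `X = ∫ hf (hes u) β e^{-u}`,
`Y = ∫ ∑∑ |γ|² e^{-u}`: `X + Y ≤ nrm a` and by `StEPG` `(nrm a)² ≤ A X ≤ (nrm a) X`.  If `nrm a > 0` then `nrm a ≤ X`,
so `Y = 0`; if `nrm a = 0` then `Y = 0` as well.  So `γ = 0` almost everywhere on `U`, `WD U k (β j) 0`, and
`StWEY` gives holomorphic representatives on `U`; all statements are insensitive to null sets. -/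
def StERI : Prop := ∀ C : Cone, Good C → ∀ (g : (Fin C.m → ℂ) → ℝ) (B A : ℝ), Measurable g →
  (∀ z ∈ C.U, |g z| ≤ B * C.u z) → 0 ≤ A →
  (∀ z ∈ C.U, ∀ c : ℂ, c ≠ 0 → g (scl C.w c z) = ‖c‖ * g z) →
  (∀ c : ℝ, A ≤ ∫ z in C.U, (g z - c) ^ 2 * Real.exp (-C.u z) * ‖ev C.J z‖ ^ 2) →
  (∀ η : Fin C.m → (Fin C.m → ℂ) → ℂ, (∀ j, Tst C.U (η j)) →
    ‖∫ z in C.U, (g z : ℂ) * ∑ j, dz j (η j) z‖ ^ 2 ≤
      A * ∫ z in C.U, hf (hes C.u z) (fun j => η j z) * (Real.exp (C.u z) / ‖ev C.J z‖ ^ 2)) →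
  ∃ (c : ℝ) (β : Fin C.m → (Fin C.m → ℂ) → ℂ), (∀ j, DifferentiableOn ℂ (β j) C.U) ∧
    IntegrableOn (fun z => hf (hes C.u z) (fun j => β j z) * Real.exp (-C.u z)) C.U ∧
    WT C.U C.u β (fun z => ((g z - c : ℝ) : ℂ) * ev C.J z)

/-! ### The vector field -/

/-- MODULE EVH (homogeneity of the field).  Inputs: `StCAL`, `StIBP`.
PROOF.  Put `a z = - ∑ j, (dz j (β j) z - dz j (cf u) z * β j z)`, smooth on `U`.  Integration by parts in `WT`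
(`star (db j φ) = dz j (star φ)`; `β_j e^{-u}` multiplied by a cutoff) gives `∫ (a - (g-c) J) star φ e^{-u} = 0` for all
test functions `φ` of `U`, so `a = (g - c) J` almost everywhere on `U`.  Let `‖c'‖ = 1`.  As
`g (scl c' z) = g z` and `J (scl c' z) = c'^jd J z`, `a (scl c' z) = c'^jd a z` almost everywhere on `U`, so
everywhere by continuity (`scl w c'` preserves `U` and null sets).  Apply `db k`: since `β j` and `J` are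
holomorphic, `db k a z = ∑ j, hes u z j k * β j z` (`db k (dz j (β j)) = 0`).  Chain rule for the linear map
`T = scl w c'`: `db k (f ∘ T) z = conj(c')^(w k) (db k f)(T z)`, `dz j (f ∘ T) z = c'^(w j) (dz j f)(T z)`.  From
`u ∘ T = u`: `hes u z j k = c'^(w j) conj(c')^(w k) hes u (T z) j k`.  From `a ∘ T = c'^jd a`:
`conj(c')^(w k) ∑ j, hes u (T z) j k β_j (T z) = c'^jd ∑ j, hes u z j k β_j z`.  So
`∑ j, hes u z j k (c'^(-w j) β_j (T z) - c'^jd β_j z) = 0` for all `k`, and `hes u z` is invertible. -/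
def StEVH : Prop := ∀ C : Cone, Good C → ∀ (g : (Fin C.m → ℂ) → ℝ) (B c : ℝ), Measurable g →
  (∀ z ∈ C.U, |g z| ≤ B * C.u z) →
  (∀ z ∈ C.U, ∀ c : ℂ, c ≠ 0 → g (scl C.w c z) = ‖c‖ * g z) →
  ∀ β : Fin C.m → (Fin C.m → ℂ) → ℂ, (∀ j, DifferentiableOn ℂ (β j) C.U) →
  WT C.U C.u β (fun z => ((g z - c : ℝ) : ℂ) * ev C.J z) →
  ∀ c' : ℂ, ‖c'‖ = 1 → ∀ z ∈ C.U, ∀ j, β j (scl C.w c' z) = c' ^ (C.jd + C.w j) * β j z

/-- MODULE EVF (the field acts on functions).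
PROOF.  `h z = ∑ j, β j z * ∂_j f z`, holomorphic on `U`.  For `‖c'‖ = 1`, `∂_j f (scl c' z) c'^(w j) = c'^k ∂_j f z`
(differentiate `Good.hom`, or compare polynomials), so `h (scl c' z) = c'^(k + jd) h z`.  On
`{z ∈ U, sz ≤ r, δ ≤ ∑ ‖Q_i‖}`: `Good.grd` with `ξ = β z` gives `‖h‖² ≤ B hf (hes u) β ≤ B e^{b r} hf (hes u) β e^{-u}`
(`u ≤ b sz ≤ b r`; `B ≥ 0` or replace by `max B 0`), integrable.  `Good.extl`. -/
def StEVF : Prop := ∀ C : Cone, Good C → ∀ β : Fin C.m → (Fin C.m → ℂ) → ℂ,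
  (∀ j, DifferentiableOn ℂ (β j) C.U) →
  IntegrableOn (fun z => hf (hes C.u z) (fun j => β j z) * Real.exp (-C.u z)) C.U →
  (∀ c' : ℂ, ‖c'‖ = 1 → ∀ z ∈ C.U, ∀ j, β j (scl C.w c' z) = c' ^ (C.jd + C.w j) * β j z) →
  ∀ k, ∀ f ∈ C.R k, ∃ f' ∈ C.R k, ∀ z ∈ C.U,
    ∑ j, β j z * ev (MvPolynomial.pderiv j f) z = ev f' z * ev C.J z

/-- MODULE EVI (the field is a Toeplitz operator).  Inputs: `StCUT`, `StMOM`, `StCAL`.
PROOF.  `WT` with the test function `φ = χ_i star(f) h J` (`χ_i` from `StCUT`; `f, h, J` polynomials):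
`star (db j φ) = χ_i ∂_j f star(h J) + f star(h J) star(db j χ_i)`.  So with `a = (g - c) J`
`∫ χ_i a f star(h J) e^{-u} = ∫ χ_i (∑ β_j ∂_j f) star(h J) e^{-u} + ∫ f star(h J) ∑ β_j star(db j χ_i) e^{-u}`.
As `i → ∞`: the left side tends to the right side of the claim (`|f|, |h| ≤ B sz^k`, `|g| ≤ B u`, `StMOM`); the
first term on the right is `∫ χ_i f' J star(h J) e^{-u} → ipp f' h`; the last is at most
`(∫ κ_i |f|² |h|² |J|² e^{-u})^{1/2} (∫ hf (hes u) β e^{-u})^{1/2} → 0` (`StCUT` with `ξ = β z`;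
`|∑ β_j star(db j χ)| = |∑ db j χ star(β_j)|`). -/
def StEVI : Prop := ∀ C : Cone, Good C → ∀ (g : (Fin C.m → ℂ) → ℝ) (B c : ℝ), Measurable g →
  (∀ z ∈ C.U, |g z| ≤ B * C.u z) →
  ∀ β : Fin C.m → (Fin C.m → ℂ) → ℂ, (∀ j, DifferentiableOn ℂ (β j) C.U) →
  IntegrableOn (fun z => hf (hes C.u z) (fun j => β j z) * Real.exp (-C.u z)) C.U →
  WT C.U C.u β (fun z => ((g z - c : ℝ) : ℂ) * ev C.J z) →
  ∀ k, ∀ f ∈ C.R k, ∀ h ∈ C.R k, ∀ f' ∈ C.R k,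
    (∀ z ∈ C.U, ∑ j, β j z * ev (MvPolynomial.pderiv j f) z = ev f' z * ev C.J z) →
    ipp C f' h = ∫ z in C.U, ((g z - c : ℝ) : ℂ) * ev f z * star (ev h z) *
      ((‖ev C.J z‖ ^ 2 * Real.exp (-C.u z) : ℝ) : ℂ)

/-- MODULE EVS (the derivation).  Inputs: `StEVH`, `StEVF`, `StEVI`, `StIPP`.
PROOF.  For `f ∈ R k` the function `f'` of `StEVF` is unique: two polynomials equal on `U` are equal (multiply
the difference by `Δ ≠ 0`; `J ≠ 0` on `U`).  So `f ↦ f'` is linear; call it `W`.  Leibniz: product rule for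
`pderiv` and uniqueness.  The formula is `StEVI`.  Self-adjointness: by the formula and because `g - c` is
real `ipp (W f) h = star (ipp (W h) f) = ipp f (W h)` (`StIPP`). -/
def StEVS : Prop := ∀ C : Cone, Good C → ∀ (g : (Fin C.m → ℂ) → ℝ) (B c : ℝ), Measurable g →
  (∀ z ∈ C.U, |g z| ≤ B * C.u z) →
  (∀ z ∈ C.U, ∀ c : ℂ, c ≠ 0 → g (scl C.w c z) = ‖c‖ * g z) →
  ∀ β : Fin C.m → (Fin C.m → ℂ) → ℂ, (∀ j, DifferentiableOn ℂ (β j) C.U) →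
  IntegrableOn (fun z => hf (hes C.u z) (fun j => β j z) * Real.exp (-C.u z)) C.U →
  WT C.U C.u β (fun z => ((g z - c : ℝ) : ℂ) * ev C.J z) →
  ∃ W : ∀ k, C.R k →ₗ[ℂ] C.R k,
    (∀ k k' (f : C.R k) (f' : C.R k') (h : C.R (k + k')),
      (h : MvPolynomial (Fin C.m) ℂ) = f * f' →
      (W (k + k') h : MvPolynomial (Fin C.m) ℂ) = W k f * f' + f * W k' f') ∧
    (∀ k (f h : C.R k), ipp C (W k f) h = ipp C f (W k h)) ∧
    ∀ k (f h : C.R k), ipp C (W k f) h = ∫ z in C.U, ((g z - c : ℝ) : ℂ) *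
      ev (f : MvPolynomial (Fin C.m) ℂ) z * star (ev (h : MvPolynomial (Fin C.m) ℂ) z) *
      ((‖ev C.J z‖ ^ 2 * Real.exp (-C.u z) : ℝ) : ℂ)

/-- MODULE EFI (the final limit).  Inputs: `StERD`, `StETM`, `StEPO`, `StEWT`, `StBER`, `StVOL`.
PROOF.  `D = n r k`, `v = g / u` (degree `0`, bounded by `B`), `v_i = F1_{t i}/(2D)`, `v_i⁰ = F1_0/(2D)`, all bounded
by a constant.  (1) `v_i = psi1 / psi → v` almost everywhere (`StEWT`), so `I1 |v_i - v| → 0`; `StETM`: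
`I1 (v_i - v_i⁰) → 0`, nonnegative; so `I1 |v_i⁰ - v| → 0` and `I1 (v_i⁰ - v)² → 0`.  (2) `StEPO` with `L = Λ k_i`:
`F2_0 / k² ≤ e² Λ (F1_{1/(Λ k)} - F1_0) / k`, whose integral over `S1` tends to `0` by `StETM` with the times
`1/(Λ k_i)`; and it is bounded (`F2_0 / k² ≤ Λ²`).  (3) With `StERD`, for `x` of degree `0`:
`(1/N) ∫ PP_0 x e^{-u} dν = I1 (x berg) / I1 berg` and by `StBER` `I1 |berg - 1| → 0`; so for uniformly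
bounded `x_i ≥ 0` with `I1 x_i → 0` the quotient tends to `0`.
(4) `(F1_0 - (g - c))² = (2D v⁰ - u v + c)² ≤ 3 (2D)² (v⁰ - v)² + 3 v² (u - 2D)² + 3 c²`, and by `StERD`
`(1/N) ∫ PP_0 v² (u-2D)² e^{-u} dν ≤ B² (2D + m + m²)`, `= o(k²)`. -/
def StEFI : Prop := ∀ (C : Cone) (r Λ : ℕ) (k N : ℕ → ℕ)
  (s : ∀ i, Fin (N i) → MvPolynomial (Fin C.m) ℂ) (lam : ∀ i, Fin (N i) → ℕ),
  Good C → SQ C r Λ k N s lam → ∀ t : ℕ → ℝ, (∀ i, 0 ≤ t i) → Tendsto t atTop (𝓝 0) →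
  ∀ (g : (Fin C.m → ℂ) → ℝ) (B c : ℝ), Measurable g → (∀ z ∈ C.U, 0 ≤ g z ∧ g z ≤ B * C.u z) →
  (∀ z ∈ C.U, ∀ c : ℂ, c ≠ 0 → g (scl C.w c z) = ‖c‖ * g z) →
  (∀ᵐ z ∂volume.restrict C.U,
    Tendsto (fun i => psi1 C (C.n * r * k i) (s i) (lam i) (t i) z) atTop (𝓝 (g z))) →
  ∀ ε : ℝ, 0 < ε → ∀ᶠ i in atTop, ∫ z in C.U, PP (s i) (lam i) 0 z *
      (F2 (s i) (lam i) 0 z + (F1 (s i) (lam i) 0 z - (g z - c)) ^ 2) *
      Real.exp (-C.u z) * ‖ev C.J z‖ ^ 2 ≤ ε * (k i : ℝ) ^ 2 * N i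

/-! ### Slopes -/

/-- MODULE ESL (almost constant derivative in the case of equality).  Inputs: `StALG`, `StLEV`,
`StDER`, `StUPB`, `StCVX`, `StDIF`, `StADP`.
PROOF.  `Λ` from `StADP` for `F` (plus one): `F k l = ⊥` for `l > Λ k`, so `finrank (F' k l) = 0` and
`F' k l = ⊥` (it is contained in the finite-dimensional `R (n r k)`); so `lam j ≤ Λ k` (`s_j ≠ 0` is in
`F' k (lam j)`).  Fix `F'` and a basis at level `k ≥ 1`, `V t = - log ZZ`: convex (`StCVX`), differentiable with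
derivative `UD` (`StDIF`), at most `C + C' t` for `t ≥ 0` (`StUPB`); so `UD` is nondecreasing with finite limit
`ℓ` at infinity, and `V t ≥ V T + UD T (t - T)`.  Claim: `Slo C r F' ℓ`.  Given an adapted basis at level one
and `ε > 0` choose `T` with `UD T ≥ ℓ - ε`; `StLEV` gives for `t ≥ 0` `ν{PP ≤ 1} ≤ B² ZZ' t = B² e^{-V t} ≤
K e^{-(ℓ-ε) t}` (`ν` of the complement of `U` is `0`).  `StALG` for `F'` gives an expansion of `F'`, which is also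
one of `F` (`Ex` depends only on the dimensions) and so has the coefficients `a₀, a₁, b₀, b₁` (uniqueness of
expansions: divide by the powers of `k` and let `k → ∞`), and `a₀ (ℓ a₀ - b₀/r) ≤ 2 (a₁ b₀ - a₀ b₁) = 0`, so
`ℓ ≤ b₀ / (r a₀)`; hence `UD t ≤ b₀/(r a₀)` for all `t`.  On the other hand by `StDER` (degree `D = n r k`, jumps
`≤ Λ k ≤ Λ D`): `UD 0 ≥ (m/(2D)) (∑ lam_j / N) - ε/2 = wF F k / (r k N) - ε/2` with
`∑ lam_j = ∑_{l ≥ 1} #{j : lam_j ≥ l} = wF F' k = wF F k`, `N = finrank R (n r k)`, and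
`wF F k / (k N) → b₀ / a₀` by `Ex` (`a₀ > 0`).  So `UD 0 ≥ b₀/(r a₀) - ε` for `k ≥ k₀`, `k₀` independent of `F'`. -/
def StESL : Prop := ∀ C : Cone, Good C → ∀ r F, NF C r F → ∀ a₀ a₁ b₀ b₁ : ℝ,
  Ex C r F a₀ a₁ b₀ b₁ → a₀ * b₁ = a₁ * b₀ → ∃ Λ : ℕ, 0 < Λ ∧
  (∀ F', NF C r F' → (∀ k l, Module.finrank ℂ (F' k l) = Module.finrank ℂ (F k l)) →
    ∀ (k N : ℕ) (s : Fin N → MvPolynomial (Fin C.m) ℂ) (lam : Fin N → ℕ), 0 < k →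
      Adp C r F' k s lam → ∀ j, lam j ≤ Λ * k) ∧
  ∀ ε : ℝ, 0 < ε → ∃ k₀ : ℕ, ∀ k : ℕ, k₀ ≤ k → ∀ F', NF C r F' →
    (∀ k l, Module.finrank ℂ (F' k l) = Module.finrank ℂ (F k l)) →
    ∀ (N : ℕ) (s : Fin N → MvPolynomial (Fin C.m) ℂ) (lam : Fin N → ℕ),
      Adp C r F' k s lam → ONB C (C.n * r * k) s →
      ∀ t : ℝ, 0 ≤ t → UD C s lam t ≤ UD C s lam 0 + ε

end Pool.Agent.Helper85.KP
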